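import Pool.Agent.P.MP_d483fb_an.Z.Erg.Birkhoff

/-!
Continuity of measure preserving actions, stabilisers of measures and of sets, and the
phenomenon of Mautner.
-/

namespace Pool.Agent.P.MP_d483fb_an.Z

open MeasureTheory Filter Set Topology TopologicalSpace
open scoped symmDiff

set_option linter.unusedSectionVars false

variable {X : Type*} [TopologicalSpace X] [PseudoMetrizableSpace X] [MeasurableSpace X]
  [BorelSpace X] {μ : Measure X} [IsFiniteMeasure μ]

/-- Pointwise convergence of measure preserving maps implies convergence in `L¹`. -/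
theorem tendsto_integral_comp_sub {I Y E : Type*} [MeasurableSpace Y] {ν : Measure Y}
    [IsFiniteMeasure ν] [NormedAddCommGroup E] [NormedSpace ℝ E] {l : Filter I}
    [l.IsCountablyGenerated] {g : I → Y → X} {g' : Y → X}
    (hg : ∀ᶠ i in l, MeasurePreserving (g i) ν μ) (hg' : MeasurePreserving g' ν μ)
    (h : ∀ᵐ y ∂ν, Tendsto (fun i => g i y) l (𝓝 (g' y))) {f : X → E} (hf : Integrable f μ) :
    Tendsto (fun i => ∫ y, ‖f (g i y) - f (g' y)‖ ∂ν) l (𝓝 0) := by
  refine Metric.tendsto_nhds.2 fun ε hε => ?_
  obtain ⟨φ, h1, h2⟩ := hf.exists_boundedContinuous_integral_sub_le (ε := ε / 3) (by positivity)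
  have h3 : Tendsto (fun i => ∫ y, ‖φ (g i y) - φ (g' y)‖ ∂ν) l (𝓝 (∫ _y, (0 : ℝ) ∂ν)) := by
    refine tendsto_integral_filter_of_dominated_convergence (fun _ => ‖φ‖ + ‖φ‖) ?_
      (Eventually.of_forall fun i => Eventually.of_forall fun y => ?_) (integrable_const _) ?_
    · filter_upwards [hg] with i hi
      exact ((hi.integrable_comp_of_integrable h2).sub
        (hg'.integrable_comp_of_integrable h2)).norm.aestronglyMeasurable
    · rw [norm_norm]
      exact (norm_sub_le _ _).trans (add_le_add (φ.norm_coe_le_norm _) (φ.norm_coe_le_norm _))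
    · filter_upwards [h] with y hy
      simpa using (((φ.continuous.tendsto _).comp hy).sub_const (φ (g' y))).norm
  rw [integral_zero] at h3
  filter_upwards [hg, h3.eventually_lt_const (by positivity : 0 < ε / 3)] with i hi h4
  have h5 : Integrable (fun x => ‖f x - φ x‖) μ := (hf.sub h2).norm
  have a1 : Integrable (fun y => ‖f (g i y) - φ (g i y)‖) ν := hi.integrable_comp_of_integrable h5
  have a2 : Integrable (fun y => ‖f (g' y) - φ (g' y)‖) ν := hg'.integrable_comp_of_integrable h5
  have a3 : Integrable (fun y => ‖φ (g i y) - φ (g' y)‖) ν :=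
    ((hi.integrable_comp_of_integrable h2).sub (hg'.integrable_comp_of_integrable h2)).norm
  have a4 : Integrable (fun y => ‖f (g i y) - φ (g i y)‖ + ‖φ (g i y) - φ (g' y)‖) ν := a1.add a3
  have h6 : ∫ y, ‖f (g i y) - f (g' y)‖ ∂ν ≤ ∫ y, (‖f (g i y) - φ (g i y)‖ +
      ‖φ (g i y) - φ (g' y)‖ + ‖f (g' y) - φ (g' y)‖) ∂ν := by
    refine integral_mono ((hi.integrable_comp_of_integrable hf).sub
      (hg'.integrable_comp_of_integrable hf)).norm (a4.add a2) fun y => ?_
    have := norm_sub_le_norm_sub_add_norm_sub (f (g i y)) (φ (g i y)) (f (g' y))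
    have := norm_sub_le_norm_sub_add_norm_sub (φ (g i y)) (φ (g' y)) (f (g' y))
    have := norm_sub_rev (φ (g' y)) (f (g' y))
    simp only
    linarith
  rw [integral_add a4 a2, integral_add a1 a3, integral_comp_mp hi h5.aestronglyMeasurable,
    integral_comp_mp hg' h5.aestronglyMeasurable] at h6
  rw [Real.dist_eq, sub_zero, abs_of_nonneg (integral_nonneg fun y => norm_nonneg _)]
  linarith

variable {G : Type*} [Group G] [MulAction G X]

/-- The elements that preserve a measure. -/
def stabMeas (G : Type*) [Group G] {X : Type*} [MulAction G X] [MeasurableSpace X]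
    [MeasurableConstSMul G X] (μ : Measure X) : Subgroup G where
  carrier := {g | MeasurePreserving (fun x => g • x) μ μ}
  one_mem' := by simpa using! MeasurePreserving.id μ
  mul_mem' := fun {g h} hg hh => by simpa [Function.comp_def, mul_smul] using hg.comp hh
  inv_mem' := fun {g} hg => MeasurePreserving.symm (MeasurableEquiv.smul g) hg

theorem mem_stabMeas [MeasurableConstSMul G X] {g : G} :
    g ∈ stabMeas G μ ↔ MeasurePreserving (fun x => g • x) μ μ := Iff.rfl

/-- The elements that preserve a measure and the class of a function. -/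
def stabFun (G : Type*) [Group G] {X E : Type*} [MulAction G X] [MeasurableSpace X]
    [MeasurableConstSMul G X] (μ : Measure X) (f : X → E) : Subgroup G where
  carrier := {g | g ∈ stabMeas G μ ∧ ∀ᵐ x ∂μ, f (g • x) = f x}
  one_mem' := ⟨one_mem _, by simp⟩
  mul_mem' := fun {g h} hg hh => ⟨mul_mem hg.1 hh.1, by
    filter_upwards [hh.2, hh.1.quasiMeasurePreserving.ae hg.2] with x h1 h2
    rw [mul_smul, h2, h1]⟩
  inv_mem' := fun {g} hg => ⟨inv_mem hg.1, by
    filter_upwards [(inv_mem hg.1).quasiMeasurePreserving.ae hg.2] with x h1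
    rw [← h1, smul_inv_smul]⟩

theorem mem_stabFun [MeasurableConstSMul G X] {E : Type*} {f : X → E} {g : G} :
    g ∈ stabFun G μ f ↔ MeasurePreserving (fun x => g • x) μ μ ∧ ∀ᵐ x ∂μ, f (g • x) = f x :=
  Iff.rfl

/-- The elements that preserve a measure and the class of a set. -/
noncomputable def stabSet (G : Type*) [Group G] {X : Type*} [MulAction G X] [MeasurableSpace X]
    [MeasurableConstSMul G X] (μ : Measure X) (s : Set X) : Subgroup G :=
  stabFun G μ (s.indicator fun _ => (1 : ℝ))

theorem mem_stabSet [MeasurableConstSMul G X] {s : Set X} {g : G} :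
    g ∈ stabSet G μ s ↔
      MeasurePreserving (fun x => g • x) μ μ ∧ (fun x => g • x) ⁻¹' s =ᵐ[μ] s := by
  rw [← indicator_const_eventuallyEq (one_ne_zero (α := ℝ))]
  rfl

variable [TopologicalSpace G] [ContinuousSMul G X] [FirstCountableTopology G]

theorem isClosed_stabMeas : IsClosed (stabMeas G μ : Set G) := by
  have e : (stabMeas G μ : Set G) =
      ⋂ φ : BoundedContinuousFunction X ℝ, {g | ∫ x, φ (g • x) ∂μ = ∫ x, φ x ∂μ} := by
    refine Subset.antisymm (fun g hg => mem_iInter.2 fun φ =>
      integral_comp_mp hg φ.continuous.aestronglyMeasurable) fun g hg => ?_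
    refine ⟨measurable_const_smul g, ext_of_forall_integral_eq_of_IsFiniteMeasure fun φ => ?_⟩
    rw [integral_map (measurable_const_smul g).aemeasurable φ.continuous.aestronglyMeasurable]
    exact mem_iInter.1 hg φ
  rw [e]
  refine isClosed_iInter fun φ => isClosed_eq (continuous_of_dominated (bound := fun _ => ‖φ‖)
    (fun g => (φ.continuous.comp (continuous_const_smul g)).aestronglyMeasurable)
    (fun g => Eventually.of_forall fun x => φ.norm_coe_le_norm _) (integrable_const _)
    (Eventually.of_forall fun x => by fun_prop)) continuous_const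

variable {E : Type*} [NormedAddCommGroup E] [NormedSpace ℝ E] {f : X → E}

/-- Continuity of the action on integrable functions. -/
theorem tendsto_integral_smul_sub {I : Type*} {l : Filter I} [l.IsCountablyGenerated] {g : I → G}
    {g' : G} (hg : ∀ᶠ i in l, g i ∈ stabMeas G μ) (hg' : g' ∈ stabMeas G μ)
    (h : Tendsto g l (𝓝 g')) (hf : Integrable f μ) :
    Tendsto (fun i => ∫ x, ‖f (g i • x) - f (g' • x)‖ ∂μ) l (𝓝 0) :=
  tendsto_integral_comp_sub (g := fun i x => g i • x) hg hg'
    (Eventually.of_forall fun x => h.smul_const x) hf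

private theorem mau_zero (hf : Integrable f μ) {g : G} (hg : g ∈ stabMeas G μ)
    (h : ∫ x, ‖f x - f (g • x)‖ ∂μ = 0) : g ∈ stabFun G μ f := by
  refine ⟨hg, ?_⟩
  filter_upwards [(integral_eq_zero_iff_of_nonneg (fun x => norm_nonneg _)
    (hf.sub (hg.integrable_comp_of_integrable hf)).norm).1 h] with x hx
  exact (sub_eq_zero.1 (norm_eq_zero.1 hx)).symm

theorem isClosed_stabFun (hf : Integrable f μ) : IsClosed (stabFun G μ f : Set G) := by
  refine isClosed_of_closure_subset fun g hg => ?_
  obtain ⟨u, h1, h2⟩ := mem_closure_iff_seq_limit.1 hg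
  have h3 : g ∈ stabMeas G μ :=
    isClosed_stabMeas.mem_of_tendsto h2 (Eventually.of_forall fun n => (h1 n).1)
  refine mau_zero hf h3 (tendsto_nhds_unique tendsto_const_nhds
    ((tendsto_integral_smul_sub (Eventually.of_forall fun n => (h1 n).1) h3 h2 hf).congr
      fun n => integral_congr_ae ?_))
  filter_upwards [(h1 n).2] with x hx
  rw [hx]

theorem isClosed_stabSet {s : Set X} (hs : MeasurableSet s) : IsClosed (stabSet G μ s : Set G) :=
  isClosed_stabFun ((integrable_const _).indicator hs)

/-- The phenomenon of Mautner. -/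
theorem mautner_fun (hf : Integrable f μ) {a : ℕ → G} {u : G} (ha : ∀ n, a n ∈ stabFun G μ f)
    (hu : u ∈ stabMeas G μ) (h : Tendsto (fun n => a n * u * (a n)⁻¹) atTop (𝓝 1)) :
    u ∈ stabFun G μ f := by
  have h1 : ∀ n, a n * u * (a n)⁻¹ ∈ stabMeas G μ := fun n =>
    mul_mem (mul_mem (ha n).1 hu) (inv_mem (ha n).1)
  refine mau_zero hf hu (tendsto_nhds_unique tendsto_const_nhds
    ((tendsto_integral_smul_sub (Eventually.of_forall h1) (one_mem _) h hf).congr fun n => ?_))
  have h2 : Integrable (fun x => ‖f ((a n * u * (a n)⁻¹) • x) - f ((1 : G) • x)‖) μ :=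
    (((h1 n).integrable_comp_of_integrable hf).sub
      ((one_mem (stabMeas G μ)).integrable_comp_of_integrable hf)).norm
  rw [← integral_comp_mp (ha n).1 h2.aestronglyMeasurable]
  refine integral_congr_ae ?_
  filter_upwards [(ha n).2, hu.quasiMeasurePreserving.ae (ha n).2] with x e1 e2
  rw [one_smul, mul_smul, inv_smul_smul, mul_smul, e1, e2, norm_sub_rev]

/-- The phenomenon of Mautner for sets. -/
theorem mautner {s : Set X} (hs : MeasurableSet s) {a u : G} (ha : a ∈ stabSet G μ s)
    (hu : u ∈ stabMeas G μ) (h : Tendsto (fun n : ℕ => a ^ n * u * (a ^ n)⁻¹) atTop (𝓝 1)) :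
    u ∈ stabSet G μ s :=
  mautner_fun ((integrable_const _).indicator hs) (fun n => pow_mem ha n) hu h

end Pool.Agent.P.MP_d483fb_an.Z
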