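import Pool.Agent.P.MP_c34bf4_an.ErgMax

/-!
The pointwise ergodic theorem and its first consequences.
-/

namespace Pool.Agent.P.MP_d483fb_an.Z

open MeasureTheory Filter Set Topology MeasurableSpace
open Pool.Agent.P.MP_c34bf4_an (maximal_ergodic ergmax_sum_measurable)

variable {X : Type*} [mX : MeasurableSpace X] {μ : Measure X} {T : X → X}

theorem condExp_invariants_comp (μ : Measure X) (T : X → X) (f : X → ℝ) (x : X) :
    (μ[f|invariants T]) (T x) = (μ[f|invariants T]) x :=
  congrFun (comp_eq_of_measurable_invariants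
    (stronglyMeasurable_condExp (m := invariants T) (μ := μ) (f := f)).measurable) x

theorem condExp_invariants_measurable (μ : Measure X) (T : X → X) (f : X → ℝ) :
    Measurable (μ[f|invariants T]) :=
  (stronglyMeasurable_condExp (m := invariants T) (μ := μ) (f := f)).measurable.mono
    (invariants_le T) le_rfl

theorem integral_comp_mp {Y : Type*} [MeasurableSpace Y] {ν : Measure Y} {S : X → Y}
    (hS : MeasurePreserving S μ ν) {f : Y → ℝ} (hf : AEStronglyMeasurable f ν) :
    ∫ x, f (S x) ∂μ = ∫ y, f y ∂ν := by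
  rw [← hS.map_eq] at hf ⊢
  exact (integral_map hS.aemeasurable hf).symm

theorem integrable_birkhoffSum (hT : MeasurePreserving T μ μ) {f : X → ℝ} (hf : Integrable f μ)
    (n : ℕ) : Integrable (birkhoffSum T f n) μ :=
  integrable_finsetSum _ fun i _ => (hT.iterate i).integrable_comp_of_integrable hf

theorem integral_birkhoffSum (hT : MeasurePreserving T μ μ) {f : X → ℝ} (hf : Integrable f μ)
    (n : ℕ) : ∫ x, birkhoffSum T f n x ∂μ = n * ∫ x, f x ∂μ := by
  unfold birkhoffSum
  rw [integral_finsetSum (f := fun i x => f (T^[i] x)) _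
      fun i _ => (hT.iterate i).integrable_comp_of_integrable hf,
    Finset.sum_congr rfl fun i _ => integral_comp_mp (hT.iterate i) hf.aestronglyMeasurable]
  simp

variable [IsFiniteMeasure μ]

private theorem erg_upper (hT : MeasurePreserving T μ μ) {f : X → ℝ} (hm : Measurable f)
    (hf : Integrable f μ) {ε : ℝ} (hε : 0 < ε) : ∀ᵐ x ∂μ, ∃ C : ℝ, ∀ n : ℕ,
      birkhoffSum T f n x ≤ C + ((μ[f|invariants T]) x + ε) * n := by
  set e := μ[f|invariants T] with he
  let φ : X → ℝ := fun x => f x - e x - ε
  have hφ : Measurable φ := (hm.sub (condExp_invariants_measurable μ T f)).sub_const ε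
  have hφi : Integrable φ μ := (hf.sub integrable_condExp).sub (integrable_const ε)
  have hsum : ∀ n x, birkhoffSum T φ n x = birkhoffSum T f n x - (e x + ε) * n := by
    intro n x
    induction n with
    | zero => simp
    | succ n ih =>
      have : e (T^[n] x) = e x := by
        clear ih
        induction n with
        | zero => rfl
        | succ n ih => rw [Function.iterate_succ_apply', he, condExp_invariants_comp, ← he, ih]
      rw [birkhoffSum_succ, birkhoffSum_succ, ih]
      simp only [φ, this]
      push_cast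
      ring
  let D : Set X := {x | ¬ ∃ C : ℕ, ∀ n, birkhoffSum T φ n x ≤ C}
  have hDm : MeasurableSet D := by
    refine MeasurableSet.compl ?_
    show MeasurableSet {x | ∃ C : ℕ, ∀ n, birkhoffSum T φ n x ≤ C}
    rw [ofPred_exists]
    refine MeasurableSet.iUnion fun C => ?_
    rw [ofPred_forall]
    exact MeasurableSet.iInter fun n =>
      measurableSet_le (ergmax_sum_measurable hT.measurable hφ n) measurable_const
  have hDi : T ⁻¹' D = D := by
    ext x
    refine not_congr ⟨?_, ?_⟩
    · rintro ⟨C, hC⟩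
      obtain ⟨C', hC'⟩ := exists_nat_ge (|φ x| + C)
      refine ⟨C', fun n => ?_⟩
      cases n with
      | zero => simp
      | succ n =>
        rw [birkhoffSum_succ']
        linarith [hC n, le_abs_self (φ x)]
    · rintro ⟨C, hC⟩
      obtain ⟨C', hC'⟩ := exists_nat_ge (|φ x| + C)
      refine ⟨C', fun n => ?_⟩
      have := hC (n + 1)
      rw [birkhoffSum_succ'] at this
      linarith [neg_abs_le (φ x)]
  have hD0 : μ D = 0 := by
    by_contra h0
    have hTD : MeasurePreserving T (μ.restrict D) (μ.restrict D) := by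
      have := hT.restrict_preimage hDm
      rwa [hDi] at this
    have hneg : ∫ x in D, φ x ∂μ < 0 := by
      have h1 : ∫ x in D, e x ∂μ = ∫ x in D, f x ∂μ :=
        setIntegral_condExp (invariants_le T) hf (measurableSet_invariants.2 ⟨hDm, hDi⟩)
      have h2 : 0 < μ.real D := ENNReal.toReal_pos h0 (measure_ne_top _ _)
      have h3 : Integrable e μ := integrable_condExp
      have h4 : Integrable (fun x => f x - e x) μ := hf.sub h3
      simp only [φ]
      rw [integral_sub h4.integrableOn (integrable_const ε),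
        integral_sub hf.integrableOn h3.integrableOn, h1]
      simpa using mul_pos h2 hε
    refine maximal_ergodic hTD hφ hφi.integrableOn hneg ?_
    rw [Measure.restrict_apply' hDm]
    refine measure_mono_null (fun x hx => ?_) measure_empty
    exact hx.2 ⟨0, fun n => by simpa using hx.1 n⟩
  filter_upwards [measure_eq_zero_iff_ae_notMem.1 hD0] with x hx
  obtain ⟨C, hC⟩ := not_not.1 hx
  exact ⟨C, fun n => by linarith [hC n, hsum n x]⟩

private theorem erg_ae (hT : MeasurePreserving T μ μ) {f : X → ℝ} (hm : Measurable f)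
    (hf : Integrable f μ) : ∀ᵐ x ∂μ,
      Tendsto (fun n : ℕ => birkhoffSum T f n x / n) atTop (𝓝 ((μ[f|invariants T]) x)) := by
  have hp : ∀ k : ℕ, (0 : ℝ) < 1 / (k + 1) := fun k => by positivity
  filter_upwards [ae_all_iff.2 fun k => erg_upper hT hm hf (hp k),
    ae_all_iff.2 fun k => erg_upper hT hm.neg hf.neg (hp k),
    condExp_neg (μ := μ) f (invariants T)] with x h1 h2 h3
  have key : ∀ (C ε : ℝ), 0 < ε → ∀ᶠ n : ℕ in atTop, C < ε * n := fun C ε hε =>
    (tendsto_natCast_atTop_atTop.const_mul_atTop hε).eventually_gt_atTop C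
  refine tendsto_order.2 ⟨fun a ha => ?_, fun a ha => ?_⟩
  · obtain ⟨k, hk⟩ := exists_nat_one_div_lt (half_pos (sub_pos.2 ha))
    obtain ⟨C, hC⟩ := h2 k
    filter_upwards [key C _ (half_pos (sub_pos.2 ha)), eventually_gt_atTop 0] with n h4 h5
    have h6 : (0 : ℝ) < n := by exact_mod_cast h5
    have h7 := hC n
    have h8 : birkhoffSum T (-f) n x = -birkhoffSum T f n x := birkhoffSum_neg T f n x
    have h9 : (μ[-f|invariants T]) x = -(μ[f|invariants T]) x := h3
    rw [lt_div_iff₀ h6]
    change birkhoffSum T (-f) n x ≤ C + ((μ[-f|invariants T]) x + _) * n at h7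
    rw [h8, h9] at h7
    nlinarith
  · obtain ⟨k, hk⟩ := exists_nat_one_div_lt (half_pos (sub_pos.2 ha))
    obtain ⟨C, hC⟩ := h1 k
    filter_upwards [key C _ (half_pos (sub_pos.2 ha)), eventually_gt_atTop 0] with n h4 h5
    have h6 : (0 : ℝ) < n := by exact_mod_cast h5
    have h7 := hC n
    rw [div_lt_iff₀ h6]
    nlinarith

/-- The pointwise ergodic theorem. -/
theorem birkhoff_ae (hT : MeasurePreserving T μ μ) {f : X → ℝ} (hf : Integrable f μ) :
    ∀ᵐ x ∂μ,
      Tendsto (fun n : ℕ => birkhoffSum T f n x / n) atTop (𝓝 ((μ[f|invariants T]) x)) := by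
  have h1 := hf.1.ae_eq_mk
  filter_upwards [erg_ae hT hf.1.stronglyMeasurable_mk.measurable (hf.congr h1),
    ae_all_iff.2 fun n => hT.quasiMeasurePreserving.birkhoffSum_ae_eq_of_ae_eq h1 n,
    condExp_congr_ae (m := invariants T) h1] with x h2 h3 h4
  rw [h4]
  exact h2.congr fun n => by rw [h3 n]

theorem condExp_invariants_of_ergodic [IsProbabilityMeasure μ] (hT : Ergodic T μ) (f : X → ℝ) :
    ∀ᵐ x ∂μ, (μ[f|invariants T]) x = ∫ y, f y ∂μ := by
  obtain ⟨c, hc⟩ := hT.toPreErgodic.ae_eq_const_of_ae_eq_comp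
    (condExp_invariants_measurable μ T f) (funext (condExp_invariants_comp μ T f))
  have h1 : ∫ x, (μ[f|invariants T]) x ∂μ = ∫ y, f y ∂μ := integral_condExp (invariants_le T)
  rw [integral_congr_ae hc] at h1
  filter_upwards [hc] with x hx
  rw [hx, ← h1]
  simp

/-- The pointwise ergodic theorem for an ergodic map. -/
theorem birkhoff_ergodic [IsProbabilityMeasure μ] (hT : Ergodic T μ) {f : X → ℝ}
    (hf : Integrable f μ) :
    ∀ᵐ x ∂μ, Tendsto (fun n : ℕ => birkhoffSum T f n x / n) atTop (𝓝 (∫ y, f y ∂μ)) := by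
  filter_upwards [birkhoff_ae hT.toMeasurePreserving hf, condExp_invariants_of_ergodic hT f]
    with x h1 h2
  rwa [h2] at h1

private theorem erg_L1 (hT : MeasurePreserving T μ μ) {f : X → ℝ} (hf : Integrable f μ)
    (h0 : ∀ x, 0 ≤ f x) : Tendsto (fun n : ℕ =>
      ∫ x, |birkhoffSum T f n x / n - (μ[f|invariants T]) x| ∂μ) atTop (𝓝 0) := by
  set e := μ[f|invariants T] with he
  have hei : Integrable e μ := integrable_condExp
  have he0 : ∀ᵐ x ∂μ, 0 ≤ e x := condExp_nonneg (Eventually.of_forall h0)
  have hi : ∀ n : ℕ, Integrable (fun x => e x - birkhoffSum T f n x / n) μ := fun n =>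
    hei.sub ((integrable_birkhoffSum hT hf n).div_const _)
  have h1 : Tendsto (fun n : ℕ => ∫ x, max (e x - birkhoffSum T f n x / n) 0 ∂μ) atTop
      (𝓝 (∫ _x, (0 : ℝ) ∂μ)) := by
    refine tendsto_integral_of_dominated_convergence e
      (fun n => ((hi n).sup (integrable_const 0)).aestronglyMeasurable) hei (fun n => ?_) ?_
    · filter_upwards [he0] with x hx
      have : 0 ≤ birkhoffSum T f n x / n :=
        div_nonneg (Finset.sum_nonneg fun i _ => h0 _) (Nat.cast_nonneg n)
      rw [Real.norm_eq_abs, abs_of_nonneg (le_max_right _ _)]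
      exact max_le (by linarith) hx
    · filter_upwards [birkhoff_ae hT hf] with x hx
      have := ((tendsto_const_nhds (x := e x)).sub hx).max (tendsto_const_nhds (x := (0 : ℝ)))
      rwa [← he, sub_self, max_self] at this
  rw [integral_zero] at h1
  have h2 := h1.const_mul 2
  rw [mul_zero] at h2
  refine h2.congr' ?_
  filter_upwards [eventually_gt_atTop 0] with n hn
  have h3 : (n : ℝ) ≠ 0 := by exact_mod_cast hn.ne'
  have h4 : ∫ x, (e x - birkhoffSum T f n x / n) ∂μ = 0 := by
    rw [integral_sub hei ((integrable_birkhoffSum hT hf n).div_const _), integral_div,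
      integral_birkhoffSum hT hf, he, integral_condExp (invariants_le T)]
    field_simp
    ring
  have h5 : ∀ x, |birkhoffSum T f n x / n - e x| =
      2 * max (e x - birkhoffSum T f n x / n) 0 - (e x - birkhoffSum T f n x / n) := fun x => by
    rcases le_total (e x - birkhoffSum T f n x / n) 0 with h | h
    · rw [max_eq_right h, abs_of_nonneg (by linarith)]; ring
    · rw [max_eq_left h, abs_of_nonpos (by linarith)]; ring
  simp only [h5]
  have h6 : Integrable (fun x => 2 * max (e x - birkhoffSum T f n x / n) 0) μ :=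
    ((hi n).sup (integrable_const 0)).const_mul 2
  rw [integral_sub h6 (hi n), h4, sub_zero, integral_const_mul]

/-- The ergodic theorem in `L¹`. -/
theorem birkhoff_L1 (hT : MeasurePreserving T μ μ) {f : X → ℝ} (hf : Integrable f μ) :
    Tendsto (fun n : ℕ =>
      ∫ x, |birkhoffSum T f n x / n - (μ[f|invariants T]) x| ∂μ) atTop (𝓝 0) := by
  have h1 := erg_L1 hT hf.pos_part fun x => le_max_right _ _
  have h2 := erg_L1 hT hf.neg_part fun x => le_max_right _ _
  have h3 := h1.add h2
  rw [add_zero] at h3
  have hi : ∀ {g : X → ℝ}, Integrable g μ → ∀ n : ℕ,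
      Integrable (fun x => |birkhoffSum T g n x / n - (μ[g|invariants T]) x|) μ := fun hg n =>
    (((integrable_birkhoffSum hT hg n).div_const _).sub integrable_condExp).abs
  refine squeeze_zero (fun n => integral_nonneg fun x => abs_nonneg _) (fun n => ?_) h3
  rw [← integral_add (hi hf.pos_part n) (hi hf.neg_part n)]
  refine integral_mono_ae (hi hf n) ((hi hf.pos_part n).add (hi hf.neg_part n)) ?_
  have e : f = (fun x => max (f x) 0) - fun x => max (-f x) 0 :=
    funext fun x => (max_zero_sub_max_neg_zero_eq_self (f x)).symm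
  filter_upwards [condExp_sub hf.pos_part hf.neg_part (invariants T)] with x hx
  rw [← e] at hx
  have h4 : birkhoffSum T f n x = birkhoffSum T (fun x => max (f x) 0) n x -
      birkhoffSum T (fun x => max (-f x) 0) n x := by
    rw [← birkhoffSum_sub, ← e]
  rw [hx, h4, Pi.sub_apply, sub_div, sub_sub_sub_comm]
  exact abs_sub _ _

/-- An integrable function grows sublinearly along almost every orbit. -/
theorem tendsto_iterate_div (hT : MeasurePreserving T μ μ) {f : X → ℝ} (hf : Integrable f μ) :
    ∀ᵐ x ∂μ, Tendsto (fun n : ℕ => f (T^[n] x) / n) atTop (𝓝 0) := by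
  filter_upwards [birkhoff_ae hT hf] with x hx
  have h1 : Tendsto (fun n : ℕ => ((n : ℝ) + 1) / n) atTop (𝓝 1) := by
    have := (tendsto_const_nhds (x := (1 : ℝ))).add tendsto_inv_atTop_nhds_zero_nat
    rw [add_zero] at this
    refine this.congr' ?_
    filter_upwards [eventually_gt_atTop 0] with n hn
    have h3 : (n : ℝ) ≠ 0 := by exact_mod_cast hn.ne'
    field_simp
  have h2 := (((tendsto_add_atTop_iff_nat 1).2 hx).mul h1).sub hx
  rw [mul_one, sub_self] at h2
  refine h2.congr fun n => ?_
  have h3 : (n : ℝ) + 1 ≠ 0 := by positivity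
  rw [birkhoffSum_succ]
  push_cast
  rw [div_mul_div_comm, mul_comm ((n : ℝ) + 1) (n : ℝ), mul_div_mul_right _ _ h3]
  ring

/-- A measurable function whose increments are integrable grows sublinearly along almost every
orbit. -/
theorem tendsto_iterate_div_of_sub (hT : MeasurePreserving T μ μ) {f : X → ℝ}
    (hm : AEMeasurable f μ) (hf : Integrable (fun x => f (T x) - f x) μ) :
    ∀ᵐ x ∂μ, Tendsto (fun n : ℕ => f (T^[n] x) / n) atTop (𝓝 0) := by
  have hsum : ∀ (n : ℕ) x, birkhoffSum T (fun x => f (T x) - f x) n x = f (T^[n] x) - f x := by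
    intro n x
    induction n with
    | zero => simp
    | succ n ih => rw [birkhoffSum_succ, ih, Function.iterate_succ_apply']; ring
  have hrec : ∀ k : ℕ, ∀ᵐ x ∂μ, x ∈ {x | |f x| ≤ k} → ∃ᶠ n in atTop, T^[n] x ∈ {x | |f x| ≤ k} :=
    fun k => hT.conservative.ae_mem_imp_frequently_image_mem
      (nullMeasurableSet_le (continuous_abs.measurable.comp_aemeasurable hm) aemeasurable_const)
  filter_upwards [birkhoff_ae hT hf, ae_all_iff.2 hrec] with x h1 h2
  generalize (μ[fun x => f (T x) - f x|invariants T]) x = c at h1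
  have h3 : Tendsto (fun n : ℕ => f (T^[n] x) / n) atTop (𝓝 c) := by
    have := h1.add (tendsto_const_div_atTop_nhds_zero_nat (f x))
    rw [add_zero] at this
    refine this.congr fun n => ?_
    rw [hsum]
    ring
  obtain ⟨k, hk⟩ := exists_nat_ge |f x|
  have h4 : |c| ≤ 0 := by
    refine le_of_tendsto_of_tendsto_of_frequently h3.abs
      (tendsto_const_div_atTop_nhds_zero_nat (k : ℝ)) ((h2 k hk).mono fun n hn => ?_)
    rw [abs_div, Nat.abs_cast]
    exact div_le_div_of_nonneg_right hn (Nat.cast_nonneg n)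
  rwa [abs_nonpos_iff.1 h4] at h3

end Pool.Agent.P.MP_d483fb_an.Z
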