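import Pool.Agent.P.MP_d483fb_an.Z.Erg.Temper

/-!
Almost every element of an ergodic action of a vector group is ergodic.
-/

namespace Pool.Agent.P.MP_d483fb_an.Z

open MeasureTheory Filter Set Topology
open scoped RealInnerProductSpace

set_option linter.unusedSectionVars false

variable {A : Type*} [NormedAddCommGroup A] [NormedSpace ℝ A] [FiniteDimensional ℝ A]
  [MeasurableSpace A] [BorelSpace A] (ν : Measure A) [ν.IsAddHaarMeasure]

section Hilbert

variable {H : Type*} [NormedAddCommGroup H] [InnerProductSpace ℝ H] [CompleteSpace H]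
  {U : A → H →L[ℝ] H}

private theorem gen_rho_cont (R : ℝ) : Continuous fun a : A => max 0 (R - ‖a‖) := by fun_prop

private theorem gen_rho_int (R : ℝ) : Integrable (fun a : A => max 0 (R - ‖a‖)) ν := by
  refine (gen_rho_cont R).integrable_of_hasCompactSupport
    (HasCompactSupport.intro (isCompact_closedBall (0 : A) R) fun a ha => max_eq_left ?_)
  rw [mem_closedBall_zero_iff] at ha
  linarith [not_le.1 ha]

private theorem gen_rho_shift (R : ℝ) {t : A} (ht : ‖t‖ ≤ 1) :
    ∫ a, |max 0 (R - ‖a - t‖) - max 0 (R - ‖a‖)| ∂ν ≤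
      ‖t‖ * ν.real (Metric.closedBall (0 : A) (R + 1)) := by
  rw [mul_comm, ← smul_eq_mul, ← setIntegral_const, ← integral_indicator measurableSet_closedBall]
  refine integral_mono (((gen_rho_int ν R).comp_sub_right t).sub (gen_rho_int ν R)).abs
    ((integrable_indicator_iff measurableSet_closedBall).2
      (integrableOn_const measure_closedBall_lt_top.ne)) fun a => ?_
  have h1 := abs_le.1 (abs_norm_sub_norm_le (a - t) a)
  rw [sub_sub_cancel_left, norm_neg] at h1
  by_cases ha : a ∈ Metric.closedBall (0 : A) (R + 1)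
  · rw [indicator_of_mem ha, max_comm 0, max_comm 0]
    exact (abs_max_sub_max_le_abs _ _ _).trans (abs_le.2 ⟨by linarith, by linarith⟩)
  · rw [indicator_of_notMem ha]
    rw [mem_closedBall_zero_iff, not_le] at ha
    simp only
    rw [max_eq_left (by linarith), max_eq_left (by linarith), sub_self, abs_zero]

private theorem gen_bound (hn : ∀ a, ‖U a‖ ≤ 1) (a : A) (f g : H) : |⟪U a f, g⟫| ≤ ‖f‖ * ‖g‖ :=
  (abs_real_inner_le_norm _ _).trans (mul_le_mul_of_nonneg_right
    (((U a).le_opNorm f).trans (mul_le_of_le_one_left (norm_nonneg _) (hn a))) (norm_nonneg _))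

private theorem gen_int {w : A → ℝ} (hw : Integrable w ν) {χ : A → ℝ} (hχ : Measurable χ) {M : ℝ}
    (hM : ∀ a, |χ a| ≤ M) : Integrable (fun a => w a * χ a) ν :=
  hw.mul_bdd hχ.aestronglyMeasurable (Eventually.of_forall hM)

private theorem gen_abs {w : A → ℝ} (hw : Integrable w ν) {χ : A → ℝ} {M : ℝ}
    (hM : ∀ a, |χ a| ≤ M) : |∫ a, w a * χ a ∂ν| ≤ (∫ a, |w a| ∂ν) * M := by
  rw [← integral_mul_const, ← Real.norm_eq_abs]
  refine norm_integral_le_of_norm_le (hw.abs.mul_const M) (Eventually.of_forall fun a => ?_)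
  rw [Real.norm_eq_abs, abs_mul]
  exact mul_le_mul_of_nonneg_left (hM a) (abs_nonneg _)

private theorem gen_decay (hadd : ∀ a b f, U (a + b) f = U a (U b f)) (hn : ∀ a, ‖U a‖ ≤ 1)
    (hm : ∀ f g, Measurable fun a => ⟪U a f, g⟫) (R : ℝ) (g : H) {f : H}
    (hf : ∀ v, (∀ b, U b v = v) → ⟪v, f⟫ = 0) :
    Tendsto (fun n : ℕ => ∫ a, max 0 (R - ‖a‖) * ⟪U (n • a) f, g⟫ ∂ν) atTop (𝓝 0) := by
  have hmn : ∀ (n : ℕ) f, Measurable fun a : A => ⟪U (n • a) f, g⟫ := fun n f =>
    (hm f g).comp (continuous_nsmul n).measurable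
  have hi : ∀ (n : ℕ) f, Integrable (fun a => max 0 (R - ‖a‖) * ⟪U (n • a) f, g⟫) ν := fun n f =>
    gen_int ν (gen_rho_int ν R) (hmn n f) fun a => gen_bound hn _ f g
  let I : ℕ → H →ₗ[ℝ] ℝ := fun n =>
    { toFun := fun f => ∫ a, max 0 (R - ‖a‖) * ⟪U (n • a) f, g⟫ ∂ν
      map_add' := fun f f' => by
        rw [← integral_add (hi n f) (hi n f')]
        simp only [map_add, inner_add_left, mul_add]
      map_smul' := fun c f => by
        simp only [map_smul, real_inner_smul_left, RingHom.id_apply, smul_eq_mul,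
          ← integral_const_mul, mul_left_comm] }
  obtain ⟨C, hC0, hC⟩ : ∃ C : ℝ, 0 < C ∧ ∀ n f, |I n f| ≤ C * ‖f‖ := by
    refine ⟨(∫ a : A, |max 0 (R - ‖a‖)| ∂ν) * ‖g‖ + 1, ?_, fun n f => ?_⟩
    · have : 0 ≤ ∫ a : A, |max 0 (R - ‖a‖)| ∂ν := integral_nonneg fun a => abs_nonneg _
      positivity
    · refine (gen_abs ν (gen_rho_int ν R) fun a => gen_bound hn _ f g).trans ?_
      nlinarith [norm_nonneg f]
  let Z : Submodule ℝ H :=
    { carrier := {f | Tendsto (fun n => I n f) atTop (𝓝 0)}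
      add_mem' := fun {f f'} h1 h2 => by simpa using h1.add h2
      zero_mem' := by simp
      smul_mem' := fun c f h1 => by simpa using h1.const_mul c }
  have hZ : IsClosed (Z : Set H) := by
    refine isClosed_of_closure_subset fun f h1 => Metric.tendsto_nhds.2 fun ε hε => ?_
    obtain ⟨f', h2, h3⟩ := Metric.mem_closure_iff.1 h1 (ε / 2 / C) (by positivity)
    filter_upwards [Metric.tendsto_nhds.1 h2 (ε / 2) (by positivity)] with n h4
    have h5 := hC n (f - f')
    rw [dist_eq_norm, lt_div_iff₀ hC0] at h3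
    rw [map_sub] at h5
    rw [Real.dist_eq, sub_zero] at h4 ⊢
    linarith [abs_sub_abs_le_abs_sub (I n f) (I n f')]
  have hcob : ∀ b f, U b f - f ∈ Z := fun b f => by
    have h1 : Tendsto (fun n : ℕ => ‖(n : ℝ)⁻¹ • b‖) atTop (𝓝 0) := by
      simpa using ((tendsto_inv_atTop_nhds_zero_nat (𝕜 := ℝ)).smul_const b).norm
    have h2 := (h1.mul_const (ν.real (Metric.closedBall (0 : A) (R + 1)))).mul_const (‖f‖ * ‖g‖)
    rw [zero_mul, zero_mul] at h2
    refine squeeze_zero_norm' ?_ h2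
    filter_upwards [h1.eventually_le_const one_pos, eventually_gt_atTop 0] with n h3 h4
    have h5 : (n : ℝ) ≠ 0 := by exact_mod_cast h4.ne'
    have e1 : I n (U b f) = ∫ a, max 0 (R - ‖a - (n : ℝ)⁻¹ • b‖) * ⟪U (n • a) f, g⟫ ∂ν := by
      rw [← integral_add_right_eq_self _ ((n : ℝ)⁻¹ • b)]
      refine integral_congr_ae (Eventually.of_forall fun a => ?_)
      simp only [add_sub_cancel_right, nsmul_add, hadd]
      rw [← Nat.cast_smul_eq_nsmul ℝ n ((n : ℝ)⁻¹ • b), smul_inv_smul₀ h5]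
    have h6 := (gen_rho_int ν R).comp_sub_right ((n : ℝ)⁻¹ • b)
    have e2 : I n (U b f - f) = ∫ a, (max 0 (R - ‖a - (n : ℝ)⁻¹ • b‖) - max 0 (R - ‖a‖)) *
        ⟪U (n • a) f, g⟫ ∂ν := by
      rw [map_sub, e1]
      simp only [sub_mul]
      exact (integral_sub (gen_int ν h6 (hmn n f) fun a => gen_bound hn _ f g) (hi n f)).symm
    rw [e2, Real.norm_eq_abs]
    exact (gen_abs ν (h6.sub (gen_rho_int ν R)) fun a => gen_bound hn _ f g).trans
      (mul_le_mul_of_nonneg_right (gen_rho_shift ν R h3) (by positivity))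
  have : CompleteSpace Z := hZ.completeSpace_coe
  have h7 : f ∈ Zᗮᗮ := (Submodule.mem_orthogonal _ _).2 fun v hv => hf v fun b => by
    have h8 := (Submodule.mem_orthogonal _ _).1 hv _ (hcob b v)
    rw [inner_sub_left, sub_eq_zero, real_inner_self_eq_norm_sq] at h8
    exact eq_of_norm_le_re_inner_eq_norm_sq (𝕜 := ℝ)
      (((U b).le_opNorm v).trans (mul_le_of_le_one_left (norm_nonneg _) (hn b))) h8
  rwa [Submodule.orthogonal_orthogonal] at h7

private theorem gen_one (h0 : ∀ f, U 0 f = f) (hadd : ∀ a b f, U (a + b) f = U a (U b f))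
    (hn : ∀ a, ‖U a‖ ≤ 1) (hm : ∀ f g, Measurable fun a => ⟪U a f, g⟫) {g : H}
    (hg : ∀ v, (∀ b, U b v = v) → ⟪v, g⟫ = 0) : ∀ᵐ a ∂ν, ∀ v, U a v = v → ⟪v, g⟫ = 0 := by
  let P : A → H := fun a => ((U a).eqLocus (1 : H →L[ℝ] H)).starProjection g
  let c : ℕ → A → ℝ := fun N a => (N : ℝ)⁻¹ * ∑ n ∈ Finset.range N, ⟪U (n • a) g, g⟫
  have hc : ∀ a, Tendsto (fun N => c N a) atTop (𝓝 (‖P a‖ ^ 2)) := fun a => by
    have h1 := ((U a).tendsto_birkhoffAverage_orthogonalProjection (hn a) g).inner (𝕜 := ℝ)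
      (tendsto_const_nhds (x := g))
    have h2 : ⟪P a, g⟫ = ‖P a‖ ^ 2 := by
      have := Submodule.starProjection_inner_eq_zero (K := (U a).eqLocus (1 : H →L[ℝ] H)) g (P a)
        (Submodule.starProjection_apply_mem _ g)
      rw [inner_sub_left, sub_eq_zero, real_inner_self_eq_norm_sq, real_inner_comm] at this
      exact this
    rw [← h2]
    refine h1.congr fun N => ?_
    simp only [birkhoffAverage, birkhoffSum, real_inner_smul_left, sum_inner, id, c,
      act_nsmul (φ := fun a f => U a f) h0 hadd]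
  have hcm : ∀ N, Measurable (c N) := fun N => measurable_const.mul
    (Finset.measurable_sum _ fun n _ => (hm g g).comp (continuous_nsmul n).measurable)
  have hcb : ∀ N a, |c N a| ≤ ‖g‖ * ‖g‖ := fun N a => by
    rcases N.eq_zero_or_pos with rfl | hN
    · simp [c, mul_self_nonneg]
    · have h1 : (0 : ℝ) < N := by exact_mod_cast hN
      rw [abs_mul, abs_inv, Nat.abs_cast, inv_mul_le_iff₀ h1]
      refine (Finset.abs_sum_le_sum_abs _ _).trans ?_
      simpa using Finset.sum_le_card_nsmul (Finset.range N) _ _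
        fun n _ => gen_bound hn (n • a) g g
  have hpm : Measurable fun a => ‖P a‖ ^ 2 :=
    measurable_of_tendsto_metrizable hcm (tendsto_pi_nhds.2 hc)
  have hR : ∀ R : ℕ, ∀ᵐ a ∂ν, max 0 ((R : ℝ) - ‖a‖) * ‖P a‖ ^ 2 = 0 := fun R => by
    have h1 : Tendsto (fun N => ∫ a, max 0 ((R : ℝ) - ‖a‖) * c N a ∂ν) atTop
        (𝓝 (∫ a, max 0 ((R : ℝ) - ‖a‖) * ‖P a‖ ^ 2 ∂ν)) := by
      refine tendsto_integral_of_dominated_convergence
        (fun a => max 0 ((R : ℝ) - ‖a‖) * (‖g‖ * ‖g‖))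
        (fun N => (gen_int ν (gen_rho_int ν R) (hcm N) (hcb N)).aestronglyMeasurable)
        ((gen_rho_int ν R).mul_const _) (fun N => Eventually.of_forall fun a => ?_)
        (Eventually.of_forall fun a => (hc a).const_mul _)
      rw [Real.norm_eq_abs, abs_mul, abs_of_nonneg (le_max_left _ _)]
      exact mul_le_mul_of_nonneg_left (hcb N a) (le_max_left _ _)
    have h2 := (gen_decay ν hadd hn hm R g hg).cesaro
    have h3 : ∫ a, max 0 ((R : ℝ) - ‖a‖) * ‖P a‖ ^ 2 ∂ν = 0 := by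
      refine tendsto_nhds_unique h1 (h2.congr fun N => ?_)
      rw [← integral_finsetSum (f := fun n a => max 0 ((R : ℝ) - ‖a‖) * ⟪U (n • a) g, g⟫) _
        fun n _ => gen_int ν (gen_rho_int ν R)
        ((hm g g).comp (continuous_nsmul n).measurable) fun a => gen_bound hn _ g g,
        ← integral_const_mul]
      refine integral_congr_ae (Eventually.of_forall fun a => ?_)
      simp only [c, ← Finset.mul_sum]
      ring
    exact (integral_eq_zero_iff_of_nonneg (fun a => mul_nonneg (le_max_left _ _) (sq_nonneg _))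
      (gen_int ν (gen_rho_int ν R) hpm fun a => le_of_tendsto' (hc a).abs fun N => hcb N a)).1 h3
  filter_upwards [ae_all_iff.2 hR] with a ha v hv
  obtain ⟨R, h1⟩ := exists_nat_gt ‖a‖
  have h2 : P a = 0 := by
    have := (mul_eq_zero.1 (ha R)).resolve_left (lt_max_of_lt_right (sub_pos.2 h1)).ne'
    simpa using this
  have h3 := Submodule.starProjection_inner_eq_zero (K := (U a).eqLocus (1 : H →L[ℝ] H)) g v hv
  change ⟪g - P a, v⟫ = 0 at h3
  rwa [h2, sub_zero, real_inner_comm] at h3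

/-- For almost every element of a vector group acting on a separable Hilbert space by
contractions, the fixed vectors are fixed by the whole group. -/
theorem ae_fixed_iff [SecondCountableTopology H] (h0 : ∀ f, U 0 f = f)
    (hadd : ∀ a b f, U (a + b) f = U a (U b f)) (hn : ∀ a, ‖U a‖ ≤ 1)
    (hm : ∀ f g, Measurable fun a => ⟪U a f, g⟫) :
    ∀ᵐ a ∂ν, ∀ v, U a v = v → ∀ b, U b v = v := by
  let W : Submodule ℝ H := ⨅ b, (U b).eqLocus (1 : H →L[ℝ] H)
  have hW : ∀ v, v ∈ W ↔ ∀ b, U b v = v := fun v => Submodule.mem_iInf _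
  have hc : IsClosed (W : Set H) := by
    rw [Submodule.coe_iInf]
    exact isClosed_iInter fun b => isClosed_eq (U b).continuous continuous_id
  have : CompleteSpace W := hc.completeSpace_coe
  obtain ⟨D, h2, h1, h3⟩ :=
    (TopologicalSpace.IsSeparable.of_separableSpace (Wᗮ : Set H)).exists_countable_dense_subset
  filter_upwards [(ae_ball_iff h1).2 fun g hg => gen_one ν h0 hadd hn hm (g := g) fun v hv =>
    (Submodule.mem_orthogonal _ _).1 (h2 hg) v ((hW v).2 hv)] with a ha v hv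
  rw [← hW, ← W.orthogonal_orthogonal]
  refine (Submodule.mem_orthogonal' _ _).2 fun g hg => ?_
  exact closure_minimal (t := {g | ⟪v, g⟫ = 0}) (fun g hg => ha g hg v hv)
    (isClosed_eq (by fun_prop) continuous_const) (h3 hg)

end Hilbert

variable {X : Type*} [MeasurableSpace X] [MeasurableSpace.CountablyGenerated X] {μ : Measure X}
  [IsFiniteMeasure μ] {φ : A → X → X}

/-- The operators on `L²` of a family of measure preserving maps. -/
theorem exists_koopman {I Y : Type*} [MeasurableSpace Y] {m : Measure Y} {ψ : I → Y → Y}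
    (hmp : ∀ a, MeasurePreserving (ψ a) m m) : ∃ U : I → Lp ℝ 2 m →L[ℝ] Lp ℝ 2 m,
      (∀ a f, U a f =ᵐ[m] fun x => f (ψ a x)) ∧ (∀ a, ‖U a‖ ≤ 1) ∧ ∀ a f, ‖U a f‖ = ‖f‖ := by
  refine ⟨fun a => (Lp.compMeasurePreservingₗᵢ ℝ (ψ a) (hmp a)).toContinuousLinearMap,
    fun a f => ?_, fun a => LinearIsometry.norm_toContinuousLinearMap_le _,
    fun a f => LinearIsometry.norm_map _ f⟩
  exact Lp.coeFn_compMeasurePreserving f (hmp a)

theorem koopman_indicator {Y : Type*} [MeasurableSpace Y] {m : Measure Y} {S : Y → Y}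
    (hS : MeasurePreserving S m m) {s : Set Y} {e e' : Lp ℝ 2 m}
    (h : e =ᵐ[m] s.indicator fun _ => 1) (h' : e' =ᵐ[m] fun x => e (S x)) :
    e' = e ↔ S ⁻¹' s =ᵐ[m] s := by
  have e2 : e' =ᵐ[m] (S ⁻¹' s).indicator fun _ => (1 : ℝ) :=
    h'.trans (hS.quasiMeasurePreserving.ae h)
  rw [← indicator_const_eventuallyEq (one_ne_zero (α := ℝ))]
  exact ⟨fun h1 => e2.symm.trans (h1 ▸ h), fun h1 => Lp.ext (e2.trans (h1.trans h.symm))⟩

theorem measurable_koopman_inner {I Y : Type*} [MeasurableSpace I] [MeasurableSpace Y]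
    {m : Measure Y} [SFinite m] {ψ : I → Y → Y} (hm : Measurable fun p : I × Y => ψ p.1 p.2)
    {U : I → Lp ℝ 2 m →L[ℝ] Lp ℝ 2 m} (hU : ∀ a f, U a f =ᵐ[m] fun x => f (ψ a x))
    (f g : Lp ℝ 2 m) : Measurable fun a => ⟪U a f, g⟫ := by
  have e : (fun a => ⟪U a f, g⟫) = fun a => ∫ x, g x * f (ψ a x) ∂m := funext fun a => by
    rw [L2.inner_def]
    refine integral_congr_ae ?_
    filter_upwards [hU a f] with x hx
    rw [hx]
    rfl
  have h1 : Measurable fun p : I × Y => g p.2 * f (ψ p.1 p.2) :=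
    ((Lp.stronglyMeasurable g).measurable.comp measurable_snd).mul
      ((Lp.stronglyMeasurable f).measurable.comp hm)
  rw [e]
  exact h1.stronglyMeasurable.integral_prod_right'.measurable

/-- For almost every element of a vector group the invariant sets are invariant under the whole
group. -/
theorem ae_invariant_iff (h0 : ∀ x, φ 0 x = x) (hadd : ∀ a b x, φ (a + b) x = φ a (φ b x))
    (hmp : ∀ a, MeasurePreserving (φ a) μ μ) (hm : Measurable fun p : A × X => φ p.1 p.2) :
    ∀ᵐ a ∂ν, ∀ s, MeasurableSet s → φ a ⁻¹' s =ᵐ[μ] s → ∀ b, φ b ⁻¹' s =ᵐ[μ] s := by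
  have : Fact ((2 : ENNReal) ≠ ⊤) := ⟨ENNReal.ofNat_ne_top⟩
  obtain ⟨U, hU, hn, -⟩ := exists_koopman hmp
  have h1 : ∀ f, U 0 f = f := fun f => Lp.ext ((hU 0 f).trans (by simp [h0]))
  have h2 : ∀ a b f, U (a + b) f = U a (U b f) := fun a b f => Lp.ext (by
    filter_upwards [hU (a + b) f, hU a (U b f), (hmp a).quasiMeasurePreserving.ae (hU b f)]
      with x e1 e2 e3
    rw [e1, e2, e3, add_comm, hadd])
  filter_upwards [ae_fixed_iff ν h1 h2 hn (measurable_koopman_inner hm hU)] with a ha s hs hi b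
  have e1 := indicatorConstLp_coeFn (p := 2) (hs := hs) (hμs := measure_ne_top μ s) (c := (1 : ℝ))
  exact (koopman_indicator (hmp b) e1 (hU b _)).1
    (ha _ ((koopman_indicator (hmp a) e1 (hU a _)).2 hi) b)

/-- Almost every element of an ergodic action of a vector group is ergodic. -/
theorem ae_ergodic (h0 : ∀ x, φ 0 x = x) (hadd : ∀ a b x, φ (a + b) x = φ a (φ b x))
    (hmp : ∀ a, MeasurePreserving (φ a) μ μ) (hm : Measurable fun p : A × X => φ p.1 p.2)
    (he : ∀ s, MeasurableSet s → (∀ b, φ b ⁻¹' s =ᵐ[μ] s) → EventuallyConst s (ae μ)) :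
    ∀ᵐ a ∂ν, Ergodic (φ a) μ := by
  filter_upwards [ae_invariant_iff ν h0 hadd hmp hm] with a ha
  exact ⟨hmp a, ⟨fun s hs hi => he s hs (ha s hs hi.eventuallyEq)⟩⟩

omit ν in
/-- An ergodic element in a given open set and outside countably many proper subspaces. -/
theorem exists_ergodic_generic (h0 : ∀ x, φ 0 x = x) (hadd : ∀ a b x, φ (a + b) x = φ a (φ b x))
    (hmp : ∀ a, MeasurePreserving (φ a) μ μ) (hm : Measurable fun p : A × X => φ p.1 p.2)
    (he : ∀ s, MeasurableSet s → (∀ b, φ b ⁻¹' s =ᵐ[μ] s) → EventuallyConst s (ae μ))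
    {I : Type*} [Countable I] (V : I → Submodule ℝ A) (hV : ∀ i, V i ≠ ⊤) {O : Set A}
    (hO : IsOpen O) (hne : O.Nonempty) : ∃ a ∈ O, (∀ i, a ∉ V i) ∧ Ergodic (φ a) μ := by
  have h1 : ∀ᵐ a ∂(Measure.addHaar : Measure A), ∀ i, a ∉ V i := ae_all_iff.2 fun i =>
    measure_eq_zero_iff_ae_notMem.1 (Measure.addHaar_submodule _ (V i) (hV i))
  exact (Measure.dense_of_ae (h1.and (ae_ergodic _ h0 hadd hmp hm he))).exists_mem_open hO hne
    |>.imp fun a h => ⟨h.2, h.1⟩

/-- A point in a given open set and outside countably many proper subspaces. -/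
theorem exists_mem_open_notMem {B : Type*} [NormedAddCommGroup B] [NormedSpace ℝ B]
    [FiniteDimensional ℝ B] {I : Type*} [Countable I] (V : I → Submodule ℝ B) (hV : ∀ i, V i ≠ ⊤)
    {O : Set B} (hO : IsOpen O) (hne : O.Nonempty) : ∃ a ∈ O, ∀ i, a ∉ V i := by
  borelize B
  have h1 : ∀ᵐ a ∂(Measure.addHaar : Measure B), ∀ i, a ∉ V i := ae_all_iff.2 fun i =>
    measure_eq_zero_iff_ae_notMem.1 (Measure.addHaar_submodule _ (V i) (hV i))
  exact ((Measure.dense_of_ae h1).exists_mem_open hO hne).imp fun a h => ⟨h.2, h.1⟩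

end Pool.Agent.P.MP_d483fb_an.Z
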