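import Pool.Agent.P.MP_d483fb_an.Z.Erg.Birkhoff

/-!
The first return map and the formula of Kac.
-/

namespace Pool.Agent.P.MP_d483fb_an.Z

open MeasureTheory Filter Set Topology
open scoped ENNReal

variable {X : Type*}

/-- The first return time to `A`; it is `0` if there is no return. -/
noncomputable def retTime (T : X → X) (A : Set X) (x : X) : ℕ := sInf {n | 0 < n ∧ T^[n] x ∈ A}

/-- The first return map to `A`. -/
noncomputable def firstRet (T : X → X) (A : Set X) (x : X) : X := T^[retTime T A x] x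

/-- The points that do not visit `A` at the times `1, …, n`. -/
def avoid (T : X → X) (A : Set X) (n : ℕ) : Set X := {x | ∀ i, 0 < i → i ≤ n → T^[i] x ∉ A}

variable {T : X → X} {A : Set X}

theorem retTime_spec {x : X} {n : ℕ} (h0 : 0 < n) (h : T^[n] x ∈ A) :
    0 < retTime T A x ∧ retTime T A x ≤ n ∧ firstRet T A x ∈ A :=
  have h1 := Nat.sInf_mem (s := {n | 0 < n ∧ T^[n] x ∈ A}) ⟨n, h0, h⟩
  ⟨h1.1, Nat.sInf_le ⟨h0, h⟩, h1.2⟩

theorem firstRet_mem {x : X} (h : 0 < retTime T A x) : firstRet T A x ∈ A := by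
  rcases (eq_empty_or_nonempty {n | 0 < n ∧ T^[n] x ∈ A}) with h1 | ⟨n, h1⟩
  · rw [retTime, h1, Nat.sInf_empty] at h
    exact absurd h (lt_irrefl _)
  · exact (retTime_spec h1.1 h1.2).2.2

theorem notMem_of_lt_retTime {x : X} {i : ℕ} (h0 : 0 < i) (h : i < retTime T A x) :
    T^[i] x ∉ A := fun h1 => absurd (retTime_spec h0 h1).2.1 (not_le.2 h)

theorem mem_avoid_iff {x : X} (h : 0 < retTime T A x) {n : ℕ} :
    x ∈ avoid T A n ↔ n < retTime T A x :=
  ⟨fun h1 => not_le.1 fun h2 => h1 _ h h2 (firstRet_mem h),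
    fun h1 _ h2 h3 => notMem_of_lt_retTime h2 (h3.trans_lt h1)⟩

theorem retTime_eq_succ {x : X} {n : ℕ} :
    retTime T A x = n + 1 ↔ x ∈ avoid T A n ∧ T^[n + 1] x ∈ A := by
  refine ⟨fun h => ?_, fun h => ?_⟩
  · have h1 : 0 < retTime T A x := by omega
    exact ⟨(mem_avoid_iff h1).2 (by omega), h ▸ firstRet_mem h1⟩
  · obtain ⟨h1, h2, -⟩ := retTime_spec (Nat.succ_pos n) h.2
    have := (mem_avoid_iff h1).1 h.1
    omega

/-- The iterates of the first return map are iterates of the map. -/
theorem iterate_firstRet (k : ℕ) (x : X) :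
    (firstRet T A)^[k] x = T^[birkhoffSum (firstRet T A) (retTime T A) k x] x := by
  induction k with
  | zero => rfl
  | succ k ih =>
    rw [Function.iterate_succ_apply', birkhoffSum_succ, add_comm, Function.iterate_add_apply, ← ih]
    rfl

/-- Sums along the orbits of the first return map. -/
theorem birkhoffSum_firstRet {M : Type*} [AddCommMonoid M] (f : X → M) (k : ℕ) (x : X) :
    birkhoffSum (firstRet T A) (fun y => birkhoffSum T f (retTime T A y) y) k x =
      birkhoffSum T f (birkhoffSum (firstRet T A) (retTime T A) k x) x := by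
  induction k with
  | zero => rfl
  | succ k ih => rw [birkhoffSum_succ, birkhoffSum_succ, birkhoffSum_add, ih, ← iterate_firstRet]

/-- Every visit to `A` is an iterate of the first return map. -/
theorem exists_iterate_firstRet (n : ℕ) : ∀ x : X, T^[n] x ∈ A →
    ∃ k ≤ n, birkhoffSum (firstRet T A) (retTime T A) k x = n := by
  induction n using Nat.strong_induction_on with
  | _ n ih =>
    intro x hx
    rcases n.eq_zero_or_pos with rfl | h0
    · exact ⟨0, le_rfl, rfl⟩
    · obtain ⟨h1, h2, -⟩ := retTime_spec h0 hx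
      obtain ⟨k, h3, h4⟩ := ih (n - retTime T A x) (by omega) (firstRet T A x) (by
        rw [firstRet, ← Function.iterate_add_apply, Nat.sub_add_cancel h2]
        exact hx)
      exact ⟨k + 1, by omega, by rw [birkhoffSum_succ', h4]; omega⟩

variable [MeasurableSpace X] {μ : Measure X}

theorem measurableSet_avoid (hT : Measurable T) (hA : MeasurableSet A) (n : ℕ) :
    MeasurableSet (avoid T A n) := by
  have : avoid T A n = ⋂ i, ⋂ _ : 0 < i, ⋂ _ : i ≤ n, (T^[i] ⁻¹' A)ᶜ := by
    ext x
    simp [avoid]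
  rw [this]
  exact .iInter fun i => .iInter fun _ => .iInter fun _ => (hT.iterate i hA).compl

theorem measurable_retTime (hT : Measurable T) (hA : MeasurableSet A) :
    Measurable (retTime T A) := by
  have h1 : ∀ n, MeasurableSet (retTime T A ⁻¹' {n + 1}) := fun n => by
    have : retTime T A ⁻¹' {n + 1} = avoid T A n ∩ T^[n + 1] ⁻¹' A := by
      ext x
      exact retTime_eq_succ
    rw [this]
    exact (measurableSet_avoid hT hA n).inter (hT.iterate _ hA)
  refine measurable_to_countable' fun n => ?_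
  cases n with
  | succ n => exact h1 n
  | zero =>
    have : retTime T A ⁻¹' {0} = (⋃ n, retTime T A ⁻¹' {n + 1})ᶜ := by
      ext x
      simp only [mem_preimage, mem_singleton_iff, mem_compl_iff, mem_iUnion, not_exists]
      exact ⟨fun h n => by omega, fun h => by_contra fun h' => h (retTime T A x - 1) (by omega)⟩
    rw [this]
    exact (MeasurableSet.iUnion h1).compl

theorem measurable_comp_retTime {Y : Type*} [MeasurableSpace Y] (hT : Measurable T)
    (hA : MeasurableSet A) {g : ℕ → X → Y} (hg : ∀ n, Measurable (g n)) :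
    Measurable fun x => g (retTime T A x) x :=
  (measurable_from_prod_countable_left (f := fun p : X × ℕ => g p.2 p.1) hg).comp
    (measurable_id.prodMk (measurable_retTime hT hA))

theorem measurable_firstRet (hT : Measurable T) (hA : MeasurableSet A) :
    Measurable (firstRet T A) :=
  measurable_comp_retTime hT hA (g := fun n => T^[n]) hT.iterate

private theorem kac_step (hT : MeasurePreserving T μ μ) (hA : MeasurableSet A) {s : Set X}
    (hs : MeasurableSet s) (N : ℕ) : μ s = ∑ j ∈ Finset.range N,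
      μ (A ∩ avoid T A j ∩ T^[j] ⁻¹' s) + μ (avoid T A N ∩ T^[N] ⁻¹' s) := by
  induction N with
  | zero =>
    have : avoid T A 0 = univ := eq_univ_of_forall fun x i h1 h2 => by omega
    simp [this]
  | succ N ih =>
    have hm : MeasurableSet (avoid T A N ∩ T^[N] ⁻¹' s) :=
      (measurableSet_avoid hT.measurable hA N).inter (hT.measurable.iterate N hs)
    have e : avoid T A (N + 1) ∩ T^[N + 1] ⁻¹' s = T ⁻¹' ((avoid T A N ∩ T^[N] ⁻¹' s) \ A) := by
      ext x
      refine ⟨fun h => ⟨⟨fun i h1 h2 => h.1 (i + 1) (by omega) (by omega), h.2⟩,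
        h.1 1 (by omega) (by omega)⟩, fun h => ⟨fun i h1 h2 => ?_, h.1.2⟩⟩
      obtain ⟨j, rfl⟩ := Nat.exists_eq_succ_of_ne_zero h1.ne'
      rcases j.eq_zero_or_pos with rfl | h3
      · exact h.2
      · exact h.1.1 j h3 (by omega)
    rw [Finset.sum_range_succ, add_assoc, e, hT.measure_preimage (hm.diff hA).nullMeasurableSet,
      inter_assoc, inter_comm A, measure_inter_add_sdiff _ hA]
    exact ih

private theorem kac_lim (hT : MeasurePreserving T μ μ) (hA : MeasurableSet A) {s : Set X}
    (hs : MeasurableSet s)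
    (h : Tendsto (fun N => μ (avoid T A N ∩ T^[N] ⁻¹' s)) atTop (𝓝 0)) :
    ∑' j, μ (A ∩ avoid T A j ∩ T^[j] ⁻¹' s) = μ s := by
  have h1 := (ENNReal.tendsto_nat_tsum fun j => μ (A ∩ avoid T A j ∩ T^[j] ⁻¹' s)).add h
  rw [add_zero] at h1
  exact tendsto_nhds_unique h1 (tendsto_const_nhds.congr (kac_step hT hA hs))

variable [IsFiniteMeasure μ]

theorem ae_retTime_pos (hT : MeasurePreserving T μ μ) (hA : MeasurableSet A) :
    ∀ᵐ x ∂μ.restrict A, 0 < retTime T A x := by
  rw [ae_restrict_iff' hA]
  filter_upwards [hT.conservative.ae_mem_imp_frequently_image_mem hA.nullMeasurableSet]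
    with x hx h
  obtain ⟨n, h1, h2⟩ := ((hx h).and_eventually (eventually_gt_atTop 0)).exists
  exact (retTime_spec h2 h1).1

/-- The first return map preserves the restricted measure. -/
theorem measurePreserving_firstRet (hT : MeasurePreserving T μ μ) (hA : MeasurableSet A) :
    MeasurePreserving (firstRet T A) (μ.restrict A) (μ.restrict A) := by
  have hR := measurable_firstRet hT.measurable hA
  have hr := measurable_retTime hT.measurable hA
  refine ⟨hR, Measure.ext fun s hs => ?_⟩
  have hm : ∀ N, MeasurableSet (retTime T A ⁻¹' {N + 1}) := fun N => hr (measurableSet_singleton _)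
  have hd : Pairwise (Function.onFun Disjoint fun N => retTime T A ⁻¹' {N + 1}) :=
    fun i j hij => disjoint_left.2 fun x h1 h2 => hij (by
      simp only [mem_preimage, mem_singleton_iff] at h1 h2
      omega)
  have e : ∀ j, avoid T A j ∩ T^[j] ⁻¹' (T ⁻¹' (s ∩ A)) =
      retTime T A ⁻¹' {j + 1} ∩ firstRet T A ⁻¹' s := fun j => by
    ext x
    simp only [mem_inter_iff, mem_preimage, mem_singleton_iff, ← Function.iterate_succ_apply' T]
    refine ⟨fun h => ?_, fun h => ?_⟩
    · have h1 := retTime_eq_succ.2 ⟨h.1, h.2.2⟩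
      exact ⟨h1, by rw [firstRet, h1]; exact h.2.1⟩
    · have h1 := retTime_eq_succ.1 h.1
      exact ⟨h1.1, by have := h.2; rwa [firstRet, h.1] at this, h1.2⟩
  have h1 := kac_lim hT hA (hT.measurable (hs.inter hA)) (by
    simp only [e]
    refine tendsto_of_tendsto_of_tendsto_of_le_of_le tendsto_const_nhds
      (ENNReal.tendsto_atTop_zero_of_tsum_ne_top (f := fun N => μ (retTime T A ⁻¹' {N + 1})) ?_)
      (fun _ => zero_le) fun N => measure_mono inter_subset_left
    rw [← measure_iUnion hd hm]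
    exact measure_ne_top _ _)
  simp only [inter_assoc, e] at h1
  rw [Measure.map_apply hR hs, Measure.restrict_apply hs,
    ← hT.measure_preimage (hs.inter hA).nullMeasurableSet, ← h1]
  have h2 : (firstRet T A ⁻¹' s : Set X) =ᵐ[μ.restrict A]
      (⋃ j, retTime T A ⁻¹' {j + 1} ∩ firstRet T A ⁻¹' s : Set X) := by
    filter_upwards [ae_retTime_pos hT hA] with x hx
    refine propext ⟨fun h => mem_iUnion.2 ⟨retTime T A x - 1, ?_, h⟩, fun h => ?_⟩
    · show retTime T A x = _
      omega
    · obtain ⟨j, hj⟩ := mem_iUnion.1 h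
      exact hj.2
  rw [measure_congr h2, measure_iUnion (hd.mono fun i j h => h.mono inter_subset_left
    inter_subset_left) fun j => (hm j).inter (hR hs)]
  exact tsum_congr fun j => by rw [Measure.restrict_apply' hA, inter_comm]

/-- The first return map of an ergodic map is ergodic. -/
theorem ergodic_firstRet (hT : Ergodic T μ) (hA : MeasurableSet A) :
    Ergodic (firstRet T A) (μ.restrict A) := by
  refine ⟨measurePreserving_firstRet hT.toMeasurePreserving hA, ⟨fun s hs hi => ?_⟩⟩
  have hm := hT.toMeasurePreserving.measurable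
  have hU : MeasurableSet (⋃ n, T^[n] ⁻¹' (s ∩ A)) := .iUnion fun n => hm.iterate n (hs.inter hA)
  have hsub : T ⁻¹' (⋃ n, T^[n] ⁻¹' (s ∩ A)) ⊆ ⋃ n, T^[n] ⁻¹' (s ∩ A) := fun x hx => by
    obtain ⟨n, hn⟩ := mem_iUnion.1 hx
    exact mem_iUnion.2 ⟨n + 1, hn⟩
  rw [eventuallyConst_set]
  rcases hT.ae_empty_or_univ_of_preimage_ae_le hU.nullMeasurableSet hsub.eventuallyLE with h | h
  · refine Or.inr ((ae_restrict_iff' hA).2 ?_)
    filter_upwards [h.mem_iff] with x hx h1 h2
    exact hx.1 (mem_iUnion.2 ⟨0, h2, h1⟩)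
  · refine Or.inl (ae_restrict_of_ae ?_)
    filter_upwards [h.mem_iff] with x hx
    obtain ⟨n, hn⟩ := mem_iUnion.1 (hx.2 (mem_univ x))
    obtain ⟨k, -, hk⟩ := exists_iterate_firstRet n x hn.2
    have h1 : (firstRet T A)^[k] x ∈ s := by
      rw [iterate_firstRet, hk]
      exact hn.1
    have h2 : (firstRet T A)^[k] ⁻¹' s = s := Function.IsFixedPt.preimage_iterate hi k
    rwa [← h2]

theorem ae_visit_of_ergodic (hT : Ergodic T μ) (hA : MeasurableSet A) (h0 : μ A ≠ 0) :
    ∀ᵐ x ∂μ, ∃ n, T^[n] x ∈ A := by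
  have hm := hT.toMeasurePreserving.measurable
  have hsub : T ⁻¹' (⋃ n, T^[n] ⁻¹' A) ⊆ ⋃ n, T^[n] ⁻¹' A := fun x hx => by
    obtain ⟨n, hn⟩ := mem_iUnion.1 hx
    exact mem_iUnion.2 ⟨n + 1, hn⟩
  rcases hT.ae_empty_or_univ_of_preimage_ae_le
    (MeasurableSet.iUnion fun n => hm.iterate n hA).nullMeasurableSet hsub.eventuallyLE with h | h
  · exact absurd (measure_mono_null (subset_iUnion (fun n => T^[n] ⁻¹' A) 0) (ae_eq_empty.1 h)) h0
  · filter_upwards [h.mem_iff] with x hx
    exact mem_iUnion.1 (hx.2 (mem_univ x))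

/-- The tower over `A` carries the whole measure. -/
theorem tower_eq (hT : MeasurePreserving T μ μ) (hA : MeasurableSet A)
    (hsw : ∀ᵐ x ∂μ, ∃ n, T^[n] x ∈ A) :
    Measure.sum (fun j => (μ.restrict (A ∩ avoid T A j)).map T^[j]) = μ := by
  refine Measure.ext fun s hs => ?_
  have hav := measurableSet_avoid hT.measurable hA
  have h1 : Tendsto (fun N => μ (avoid T A N)) atTop (𝓝 (μ (⋂ N, avoid T A N))) :=
    tendsto_measure_iInter_atTop (fun N => (hav N).nullMeasurableSet)
      (fun i j hij x hx k h1 h2 => hx k h1 (h2.trans hij)) ⟨0, measure_ne_top _ _⟩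
  have h2 : μ (⋂ N, avoid T A N) = 0 := by
    rw [measure_eq_zero_iff_ae_notMem]
    filter_upwards [hT.quasiMeasurePreserving.ae hsw] with x ⟨n, hn⟩ hx
    exact mem_iInter.1 hx (n + 1) (n + 1) (Nat.succ_pos n) le_rfl hn
  rw [h2] at h1
  rw [Measure.sum_apply _ hs, ← kac_lim hT hA hs (tendsto_of_tendsto_of_tendsto_of_le_of_le
    tendsto_const_nhds h1 (fun _ => zero_le) fun N => measure_mono inter_subset_left)]
  exact tsum_congr fun j => by
    rw [Measure.map_apply (hT.measurable.iterate j) hs,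
      Measure.restrict_apply' (hA.inter (hav j)), inter_comm]

/-- The formula of Kac for nonnegative functions. -/
theorem lintegral_tower (hT : MeasurePreserving T μ μ) (hA : MeasurableSet A)
    (hsw : ∀ᵐ x ∂μ, ∃ n, T^[n] x ∈ A) {f : X → ℝ≥0∞} (hf : Measurable f) :
    ∫⁻ x in A, birkhoffSum T f (retTime T A x) x ∂μ = ∫⁻ x, f x ∂μ := by
  have hav := measurableSet_avoid hT.measurable hA
  conv_rhs => rw [← tower_eq hT hA hsw, lintegral_sum_measure]
  have e : ∀ j, ∫⁻ x, f x ∂(μ.restrict (A ∩ avoid T A j)).map T^[j] =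
      ∫⁻ x in A, (avoid T A j).indicator (fun x => f (T^[j] x)) x ∂μ := fun j => by
    rw [lintegral_map hf (hT.measurable.iterate j), lintegral_indicator (hav j),
      Measure.restrict_restrict (hav j), inter_comm]
  simp only [e]
  rw [← lintegral_tsum (f := fun j => (avoid T A j).indicator fun x => f (T^[j] x))
    fun j => ((hf.comp (hT.measurable.iterate j)).indicator (hav j)).aemeasurable]
  refine lintegral_congr_ae ?_
  filter_upwards [ae_retTime_pos hT hA] with x hx
  rw [tsum_eq_sum (s := Finset.range (retTime T A x)) fun j hj => indicator_of_notMem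
    (fun h => hj (Finset.mem_range.2 ((mem_avoid_iff hx).1 h))) _]
  exact Finset.sum_congr rfl fun j hj =>
    (indicator_of_mem ((mem_avoid_iff hx).2 (Finset.mem_range.1 hj)) fun x => f (T^[j] x)).symm

/-- The mean return time. -/
theorem lintegral_retTime (hT : MeasurePreserving T μ μ) (hA : MeasurableSet A)
    (hsw : ∀ᵐ x ∂μ, ∃ n, T^[n] x ∈ A) : ∫⁻ x in A, (retTime T A x : ℝ≥0∞) ∂μ = μ univ := by
  simpa [birkhoffSum] using lintegral_tower hT hA hsw (f := fun _ => 1) measurable_const

private theorem kac_pos (hT : MeasurePreserving T μ μ) (hA : MeasurableSet A)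
    (hsw : ∀ᵐ x ∂μ, ∃ n, T^[n] x ∈ A) {f : X → ℝ} (hm : Measurable f) (hf : Integrable f μ)
    (h0 : ∀ x, 0 ≤ f x) :
    IntegrableOn (fun x => birkhoffSum T f (retTime T A x) x) A μ ∧
      ∫ x in A, birkhoffSum T f (retTime T A x) x ∂μ = ∫ x, f x ∂μ := by
  have h1 : Measurable fun x => birkhoffSum T f (retTime T A x) x :=
    measurable_comp_retTime hT.measurable hA fun n =>
      Finset.measurable_sum _ fun i _ => hm.comp (hT.measurable.iterate i)
  have h2 : ∀ x, 0 ≤ birkhoffSum T f (retTime T A x) x := fun x =>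
    Finset.sum_nonneg fun i _ => h0 _
  have h3 : ∫⁻ x in A, ENNReal.ofReal (birkhoffSum T f (retTime T A x) x) ∂μ =
      ∫⁻ x, ENNReal.ofReal (f x) ∂μ := by
    rw [← lintegral_tower hT hA hsw hm.ennreal_ofReal]
    exact lintegral_congr fun x => ENNReal.ofReal_sum_of_nonneg fun i _ => h0 _
  refine ⟨⟨h1.aestronglyMeasurable, ?_⟩, ?_⟩
  · rw [hasFiniteIntegral_iff_ofReal (Eventually.of_forall h2), h3]
    exact (hasFiniteIntegral_iff_ofReal (Eventually.of_forall h0)).1 hf.2
  · rw [integral_eq_lintegral_of_nonneg_ae (Eventually.of_forall h2) h1.aestronglyMeasurable, h3,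
      integral_eq_lintegral_of_nonneg_ae (Eventually.of_forall h0) hm.aestronglyMeasurable]

/-- The formula of Kac for integrable functions. -/
theorem integral_tower (hT : MeasurePreserving T μ μ) (hA : MeasurableSet A)
    (hsw : ∀ᵐ x ∂μ, ∃ n, T^[n] x ∈ A) {f : X → ℝ} (hm : Measurable f) (hf : Integrable f μ) :
    IntegrableOn (fun x => birkhoffSum T f (retTime T A x) x) A μ ∧
      ∫ x in A, birkhoffSum T f (retTime T A x) x ∂μ = ∫ x, f x ∂μ := by
  obtain ⟨a1, a2⟩ := kac_pos hT hA hsw (hm.max measurable_const) hf.pos_part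
    fun x => le_max_right _ _
  obtain ⟨b1, b2⟩ := kac_pos hT hA hsw (f := fun x => max (-f x) 0) (hm.neg.max measurable_const)
    hf.neg_part fun x => le_max_right _ _
  have e : ∀ n x, birkhoffSum T f n x = birkhoffSum T (fun x => max (f x) 0) n x -
      birkhoffSum T (fun x => max (-f x) 0) n x := fun n x => by
    rw [← birkhoffSum_sub]
    exact congrArg (fun g => birkhoffSum T g n x)
      (funext fun x => (max_zero_sub_max_neg_zero_eq_self (f x)).symm)
  simp only [e]
  refine ⟨a1.sub b1, ?_⟩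
  rw [integral_sub a1 b1, a2, b2, ← integral_sub hf.pos_part hf.neg_part]
  exact integral_congr_ae (Eventually.of_forall fun x => max_zero_sub_max_neg_zero_eq_self (f x))

end Pool.Agent.P.MP_d483fb_an.Z
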