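import Pool.Agent.P.MP_d483fb_an.Z.Lie.Closed
import Pool.Agent.P.MP_d483fb_an.Z.Lie.Mx2
import Pool.Agent.P.MP_d483fb_an.Z.Path.Defs
import Pool.Agent.P.MP_d483fb_an.Z.Erg.Mautner

/-! The ergodicity theorem of Moore for elements of the Cartan subgroup. -/

open scoped Matrix Matrix.Norms.Operator InnerProductSpace RealInnerProductSpace Topology
open NormedSpace Filter Set MeasureTheory TopologicalSpace

attribute [local instance 100] LieRing.ofAssociativeRing

noncomputable section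

namespace Pool.Agent.P.MP_d483fb_an.Z

namespace Std

variable {G : Type} [Group G] [TopologicalSpace G] {n k : ℕ} (D : Std G n k)

theorem mo_br (s : Euc k) (X : Mat n) (i j : Fin n) :
    ⁅D.dg s, X⁆ i j = ⟪D.lam i - D.lam j, s⟫ * X i j := by
  simp only [Ring.lie_def, dg_apply, Matrix.sub_apply, Matrix.diagonal_mul, Matrix.mul_diagonal,
    inner_sub_left]
  ring

theorem mo_eig {β : Euc k} {X : Mat n} (hX : X ∈ D.wtS {β}) (s : Euc k) :
    ⁅D.dg s, X⁆ = ⟪β, s⟫ • X := by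
  ext i j
  rw [mo_br, Matrix.smul_apply, smul_eq_mul]
  by_cases h : X i j = 0
  · simp [h]
  · rw [show D.lam i - D.lam j = β from hX i j h]

theorem mo_tr {X : Mat n} (hX : X ∈ D.g) : Xᵀ ∈ D.g := by
  have h0 : Tendsto (fun t : ℝ => t • Xᵀ) (𝓝 0) (𝓝 0) := by
    simpa using! (continuous_id.smul (continuous_const (y := Xᵀ))).tendsto (0 : ℝ)
  have he : Filter.map exp (𝓝 (0 : Mat n)) = 𝓝 1 := map_exp_nhds
  have hl : ∀ᶠ Y in 𝓝 (0 : Mat n), mlog (exp Y) = Y := mlog_exp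
  have h1 : Tendsto (fun t : ℝ => exp (t • Xᵀ)) (𝓝 0) (Filter.map D.ρ (𝓝 1)) := by
    rw [D.opn]
    refine tendsto_nhdsWithin_iff.2 ⟨?_, Eventually.of_forall fun t => ?_⟩
    · rw [← he]
      exact tendsto_map.comp h0
    · obtain ⟨x, hx⟩ := D.tr (D.ex (t • X))
      exact ⟨x, by rw [hx, D.ρ_ex _ (D.g.smul_mem t hX), ← Matrix.exp_transpose,
        Matrix.transpose_smul]⟩
  have h2 : ∀ᶠ y in Filter.map D.ρ (𝓝 1), mlog y ∈ D.g := D.ex_lg.mono fun x hx => hx.1
  obtain ⟨t, ⟨h3, h4⟩, ht⟩ := ((((h1.eventually h2).and (h0.eventually hl)).filter_mono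
    (nhdsWithin_le_nhds (s := {0}ᶜ))).and self_mem_nhdsWithin).exists
  rw [h4] at h3
  exact (D.g.smul_mem_iff ht).1 h3

theorem mo_tr_gr {β : Euc k} {X : Mat n} (hX : X ∈ D.gr β) : Xᵀ ∈ D.gr (-β) :=
  ⟨D.mo_tr hX.1, fun i j h => by rw [← show D.lam j - D.lam i = β from hX.2 j i h]; simp⟩

theorem mo_sum (X : Mat n) : ∑ β ∈ D.wts, D.pr β X = X := by
  classical
  ext i j
  rw [Matrix.sum_apply, Finset.sum_eq_single (D.lam i - D.lam j)]
  · simp [pr, prS_apply]
  · intro β _ hβ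
    simp [pr, prS_apply, hβ.symm]
  · intro h
    exact absurd (Finset.mem_image.2 ⟨(i, j), Finset.mem_univ _, rfl⟩) h

theorem mo_ip (β : Euc k) (X : Mat n) : ip X (D.pr β X) = ip (D.pr β X) (D.pr β X) := by
  refine Finset.sum_congr rfl fun i _ => Finset.sum_congr rfl fun j _ => ?_
  simp only [pr, prS_apply]
  split_ifs <;> simp

theorem mo_dg {X : Mat n} (hX : X ∈ D.gr 0) (hs : X.IsSymm) : ∃ s, X = D.dg s :=
  D.max' X hX.1 hs fun i j h => sub_eq_zero.1 (hX.2 i j h)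

variable [IsTopologicalGroup G]

theorem mo_br_gr {β γ : Euc k} {X Y : Mat n} (hX : X ∈ D.gr β) (hY : Y ∈ D.gr γ) :
    ⁅X, Y⁆ ∈ D.gr (β + γ) :=
  ⟨D.br_mem hX.1 hY.1, Submodule.sub_mem _
    (D.wtS_mul hX.2 hY.2 (by rintro _ rfl _ rfl; rfl))
    (D.wtS_mul hY.2 hX.2 (by rintro _ rfl _ rfl; exact add_comm _ _))⟩

theorem mo_pr (β : Euc k) {X : Mat n} (hX : X ∈ D.g) : D.pr β X ∈ D.gr β := by
  refine ⟨?_, fun i j h => ?_⟩
  · have := mask_mem D.g (fun (s : Euc k) i j => ⟪D.lam i - D.lam j, s⟫) (fun s Y hY => by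
      convert D.br_mem (D.dg_mem s) hY using 1
      ext i j
      rw [mo_br, Matrix.of_apply]) {p | D.lam p.1 - D.lam p.2 = β} (fun p hp q h => by
        rw [mem_ofPred_eq, ← hp]
        exact ext_inner_right ℝ fun s => (h s).symm) hX
    refine (congrArg (· ∈ D.g) ?_).mp this
    ext i j
    simp [pr, prS_apply]
  · by_contra h1
    exact h (by rw [pr, prS_apply, if_neg h1])

theorem mo_ind {p : Mat n → Prop} (h0 : p 0) (hadd : ∀ X Y, p X → p Y → p (X + Y))
    (hz : ∀ X ∈ D.gr 0, p X) (hr : ∀ β ∈ D.roots, ∀ X ∈ D.gr β, p X) {X : Mat n} (hX : X ∈ D.g) :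
    p X := by
  classical
  rw [← D.mo_sum X]
  refine Finset.sum_induction _ p hadd h0 fun β hβ => ?_
  by_cases h1 : β = 0
  · exact hz _ (h1 ▸ D.mo_pr β hX)
  · by_cases h2 : D.gr β = ⊥
    · rw [(Submodule.eq_bot_iff _).1 h2 _ (D.mo_pr β hX)]
      exact h0
    · exact hr β (Finset.mem_filter.2 ⟨hβ, h1, h2⟩) _ (D.mo_pr β hX)

theorem mo_coroot {β : Euc k} {E : Mat n} (hE : E ∈ D.gr β) : ⁅E, Eᵀ⁆ = ip E E • D.dg β := by
  have h1 := D.mo_br_gr hE (D.mo_tr_gr hE)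
  rw [add_neg_cancel] at h1
  obtain ⟨s, hs⟩ := D.mo_dg h1 (by rw [Matrix.IsSymm, tr_br, Matrix.transpose_transpose])
  rw [hs, ← map_smul]
  congr 1
  refine ext_inner_right ℝ fun t => ?_
  have h2 : ip (D.dg s) (D.dg t) = ⟪s, t⟫ := by
    rw [← D.frame]
    refine Finset.sum_congr rfl fun i _ => ?_
    rw [Finset.sum_eq_single i] <;> simp +contextual [dg_apply, Matrix.diagonal_apply_ne']
  rw [← h2, ← hs, ip_br, ← lie_skew, D.mo_eig (D.mo_tr_gr hE).2, inner_neg_left, neg_smul, neg_neg,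
    ip_smul_right, ip_tr, inner_smul_left]
  simp [mul_comm]

/-- A subalgebra that contains all root spaces is everything. -/
theorem mo_gen {v : Submodule ℝ (Mat n)} (hv : v ≤ D.g) (hs : IsSub v)
    (h : ∀ β ∈ D.roots, D.gr β ≤ v) : D.g ≤ v := by
  classical
  let I : Submodule ℝ (Mat n) :=
    { carrier := {X | X ∈ D.gr 0 ∧ ∀ β ∈ D.roots, ∀ E ∈ D.gr β, ⁅E, X⁆ = 0}
      zero_mem' := ⟨zero_mem _, fun _ _ _ _ => lie_zero _⟩
      add_mem' := fun hX hY => ⟨add_mem hX.1 hY.1, fun β hβ E hE => by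
        rw [lie_add, hX.2 β hβ E hE, hY.2 β hβ E hE, add_zero]⟩
      smul_mem' := fun c X hX => ⟨Submodule.smul_mem _ c hX.1, fun β hβ E hE => by
        rw [lie_smul, hX.2 β hβ E hE, smul_zero]⟩ }
  have hI : IsIdl D.g I := by
    refine ⟨fun X hX => hX.1.1, fun X hX Y hY => ?_⟩
    refine D.mo_ind (p := fun X => ⁅X, Y⁆ ∈ I) (by rw [zero_lie]; exact zero_mem _)
      (fun X X' h h' => by rw [add_lie]; exact add_mem h h') (fun X hX => ⟨?_, fun β hβ E hE => ?_⟩)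
      (fun β hβ X hX => by rw [hY.2 β hβ X hX]; exact zero_mem _) hX
    · simpa using D.mo_br_gr hX hY.1
    · rw [leibniz_lie, hY.2 β hβ E hE, lie_zero, add_zero]
      exact hY.2 β hβ _ (by simpa using D.mo_br_gr hE hX)
  have hb : I = ⊥ := by
    by_contra hne
    obtain ⟨X, hX, Y, -, hXs, -, -, hl⟩ := D.rank I hI hne
    obtain ⟨s, rfl⟩ := D.mo_dg hX.1 hXs
    refine hl.ne_zero 0 (D.cent _ hX.1.1 fun Z hZ => ?_)
    refine D.mo_ind (p := fun Z => ⁅D.dg s, Z⁆ = 0) (lie_zero _)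
      (fun Z Z' h h' => by rw [lie_add, h, h', add_zero])
      (fun Z hZ => by rw [D.mo_eig hZ.2, inner_zero_left, zero_smul])
      (fun β hβ Z hZ => by rw [← lie_skew, hX.2 β hβ Z hZ, neg_zero]) hZ
  refine le_of_orth hv fun X hX h0 => (Submodule.eq_bot_iff _).1 hb X ?_
  have h1 : ∀ β, β ≠ 0 → D.gr β ≤ v := fun β hβ Y hY => by
    by_cases hY0 : Y = 0
    · rw [hY0]
      exact zero_mem _
    · obtain ⟨i, hi⟩ := Function.ne_iff.1 hY0
      obtain ⟨j, hj⟩ := Function.ne_iff.1 hi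
      refine h β (Finset.mem_filter.2 ⟨Finset.mem_image.2 ⟨(i, j), Finset.mem_univ _,
        hY.2 i j hj⟩, hβ, fun h2 => hY0 ((Submodule.eq_bot_iff _).1 h2 _ hY)⟩) hY
  have h2 : X ∈ D.gr 0 := by
    refine ⟨hX, fun i j hij => ?_⟩
    by_contra h3
    have h4 := h0 _ (h1 _ h3 (D.mo_pr _ hX))
    rw [mo_ip, ip_self_eq_zero] at h4
    have := congrFun (congrFun h4 i) j
    simp only [pr, prS_apply, mem_singleton_iff, if_true] at this
    exact hij this
  refine ⟨h2, fun β hβ E hE => ip_self_eq_zero.1 ?_⟩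
  have h3 : β ≠ 0 := (Finset.mem_filter.1 hβ).2.1
  rw [ip_br]
  exact h0 _ (hs _ (h1 _ (neg_ne_zero.2 h3) (D.mo_tr_gr hE)) _
    (h1 β h3 (by simpa using D.mo_br_gr hE h2)))

theorem mo_pow (s : Euc k) (m : ℕ) : D.a s ^ m = D.a ((m : ℝ) • s) := by
  rw [a, a, map_smul, D.ex_nsmul (D.dg_mem s)]

theorem mo_inv (s : Euc k) : (D.a s)⁻¹ = D.a (-s) := by
  rw [a, a, map_neg, D.ex_neg (D.dg_mem s)]

theorem mo_Ad (s : Euc k) (X : Mat n) (i j : Fin n) :
    D.Ad (D.a s) X i j = Real.exp ⟪D.lam i - D.lam j, s⟫ * X i j := by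
  rw [a, D.Ad_ex (D.dg_mem s), dg_apply, Matrix.diagonal_neg, Matrix.exp_diagonal,
    Matrix.exp_diagonal, Matrix.mul_diagonal, Matrix.diagonal_mul, Pi.coe_exp, Pi.coe_exp,
    ← Real.exp_eq_exp_ℝ, inner_sub_left, sub_eq_add_neg, Real.exp_add]
  ring

/-- The horospherical group of `s` is contracted by `a (-s)`. -/
theorem tendsto_conj_np {s : Euc k} {X : Mat n} (hX : X ∈ D.np s) :
    Tendsto (fun m : ℕ => (D.a s)⁻¹ ^ m * D.ex X * ((D.a s)⁻¹ ^ m)⁻¹) atTop (𝓝 1) := by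
  simp only [D.conj_ex _ hX.1]
  simp only [mo_inv, mo_pow]
  rw [← D.ex_zero]
  refine (D.ex_cont 0 (zero_mem _)).tendsto.comp (tendsto_nhdsWithin_iff.2
    ⟨tendsto_pi_nhds.2 fun i => tendsto_pi_nhds.2 fun j => ?_,
      Eventually.of_forall fun m => D.Ad_mem _ hX.1⟩)
  simp only [mo_Ad, inner_smul_right, inner_neg_right, Matrix.zero_apply]
  by_cases h : X i j = 0
  · simp [h]
  · rw [← zero_mul (X i j)]
    exact (Real.tendsto_exp_atBot.comp (tendsto_natCast_atTop_atTop.atTop_mul_const_of_neg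
      (neg_lt_zero.2 (hX.2 i j h)))).mul_const _

/-- A closed subgroup with the property of Mautner that contains a full element is everything. -/
theorem eq_top_of_mautner [PreconnectedSpace G] {H : Subgroup G} (hH : IsClosed (H : Set G))
    (hM : ∀ a ∈ H, ∀ u, Tendsto (fun m : ℕ => a ^ m * u * (a ^ m)⁻¹) atTop (𝓝 1) → u ∈ H)
    {s : Euc k} (hs : D.Full s) (ha : D.a s ∈ H) : H = ⊤ := by
  have h1 : ∀ s β : Euc k, D.a s ∈ H → 0 < ⟪β, s⟫ → D.gr β ≤ D.lie H := fun s β ha h =>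
    D.le_lie inf_le_left fun X hX => hM _ (inv_mem ha) _ (D.tendsto_conj_np
      ⟨hX.1, fun i j hij => by rwa [show D.lam i - D.lam j = β from hX.2 i j hij]⟩)
  have h2 : ∀ s β : Euc k, D.a s ∈ H → ⟪β, s⟫ ≠ 0 → D.gr β ≤ D.lie H := fun s β ha h =>
    h.lt_or_gt.elim (fun h => h1 (-s) β (D.mo_inv s ▸ inv_mem ha) (by simpa using h)) (h1 s β ha)
  have h3 : ∀ s : Euc k, ∀ β ∈ D.roots, D.a s ∈ H → ⟪β, s⟫ ≠ 0 → D.a β ∈ H := by
    intro s β hβ ha h
    obtain ⟨E, hE, hE0⟩ := (Submodule.ne_bot_iff _).1 (Finset.mem_filter.1 hβ).2.2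
    have := D.lie_isSub H _ (h2 s β ha h hE) _ (h2 s (-β) ha (by simpa using h) (D.mo_tr_gr hE))
    rw [D.mo_coroot hE, Submodule.smul_mem_iff _ (ip_self_pos hE0).ne'] at this
    exact D.ex_mem_of_lie hH this
  refine D.eq_top_of_le_lie (D.mo_gen (D.lie_le H) (D.lie_isSub H) fun γ hγ => ?_)
  obtain ⟨β, hβ, hc, h⟩ := hs γ hγ
  have h4 : D.a γ ∈ H := by
    clear hγ
    induction hc using Relation.ReflTransGen.head_induction_on with
    | refl => exact h3 s β hβ ha h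
    | head hr _ ih => exact h3 _ _ hr.1 ih hr.2.2
  exact h2 γ γ h4 (inner_self_ne_zero.2 (Finset.mem_filter.1 hγ).2.1)

section

variable {X : Type*} [TopologicalSpace X] [PseudoMetrizableSpace X] [MeasurableSpace X]
  [BorelSpace X] {μ : Measure X} [IsFiniteMeasure μ] [MulAction G X] [ContinuousSMul G X]
  [FirstCountableTopology G]

/-- A set that is invariant under `a s` is invariant under the horospherical group of `s`. -/
theorem N_le_stabSet {s : Euc k} {U : Set X} (hU : MeasurableSet U) (ha : D.a s ∈ stabSet G μ U)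
    (hN : D.N s ≤ stabMeas G μ) : D.N s ≤ stabSet G μ U :=
  (Subgroup.closure_le _).2 <| by
    rintro _ ⟨Y, hY, rfl⟩
    exact mautner hU (inv_mem ha) (hN (Subgroup.subset_closure ⟨Y, hY, rfl⟩))
      (D.tendsto_conj_np hY)

/-- The theorem of Moore: a set that is invariant under a full element is invariant. -/
theorem moore [PreconnectedSpace G] (hμ : ∀ g : G, MeasurePreserving (fun x : X => g • x) μ μ)
    {s : Euc k} (hs : D.Full s) {U : Set X} (hU : MeasurableSet U)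
    (ha : (fun x => D.a s • x) ⁻¹' U =ᵐ[μ] U) (g : G) : (fun x => g • x) ⁻¹' U =ᵐ[μ] U := by
  have := D.eq_top_of_mautner (isClosed_stabSet (μ := μ) hU)
    (fun a ha u h => mautner hU ha (hμ u) h) hs (mem_stabSet.2 ⟨hμ _, ha⟩)
  exact (mem_stabSet.1 (this ▸ Subgroup.mem_top g)).2

end

end Std

/-- Transitive actions are ergodic. -/
theorem aeconst_of_trans {G X : Type*} [Group G] [MeasurableSpace G] [MeasurableMul G]
    (m : Measure G) [SFinite m] [m.IsMulRightInvariant] [NeZero m] [MulAction G X]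
    [MeasurableSpace X] [MeasurableSMul₂ G X] {μ : Measure X} [SFinite μ]
    (htr : ∀ x y : X, ∃ g : G, g • x = y) {U : Set X} (hU : MeasurableSet U)
    (h : ∀ g : G, (fun x => g • x) ⁻¹' U =ᵐ[μ] U) : EventuallyConst U (ae μ) := by
  have h1 : ∀ᵐ x ∂μ, ∀ᵐ g ∂m, (g • x ∈ U ↔ x ∈ U) :=
    (Measure.ae_ae_comm (μ := m) (ν := μ) (p := fun g x => (g • x ∈ U ↔ x ∈ U))
      ((measurable_fst.smul measurable_snd hU).iff (measurable_snd hU))).1
      (Eventually.of_forall fun g => eventuallyEq_set.1 (h g))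
  rcases eq_zero_or_neZero μ with rfl | hμ
  · simp
  obtain ⟨o, ho⟩ := h1.exists
  have h2 : ∀ᵐ x ∂μ, (x ∈ U ↔ o ∈ U) := h1.mono fun x hx => by
    obtain ⟨a, rfl⟩ := htr o x
    obtain ⟨g, h3, h4⟩ := (hx.and ((measurePreserving_mul_right m a).quasiMeasurePreserving.ae
      ho)).exists
    rw [← h3, ← h4, mul_smul]
  by_cases h3 : o ∈ U
  · exact eventuallyConst_set.2 (.inl (h2.mono fun x hx => hx.2 h3))
  · exact eventuallyConst_set.2 (.inr (h2.mono fun x hx h4 => h3 (hx.1 h4)))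

/-- Full elements of the Cartan subgroup act ergodically on a quotient by a lattice. -/
theorem Std.ergodic_of_full {G : Type} [Group G] [TopologicalSpace G] [IsTopologicalGroup G]
    [T2Space G] [LocallyCompactSpace G] [SecondCountableTopology G] [MeasurableSpace G]
    [BorelSpace G] {X : Type} [TopologicalSpace X] [T2Space X] [SecondCountableTopology X]
    [MeasurableSpace X] [BorelSpace X] [MulAction G X] [ContinuousSMul G X] {μ : Measure X}
    [IsProbabilityMeasure μ] [SMulInvariantMeasure G X μ] [ConnectedSpace G] {n k : ℕ}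
    (D : Std G n k) (l : Len G) (B : Base l X) {s : Euc k} (hs : D.Full s) :
    Ergodic (fun x : X => D.a s • x) μ := by
  have : LocallyCompactSpace X := IsOpenQuotientMap.locallyCompactSpace
    (f := fun g : G => g • B.o) ⟨B.trans, by fun_prop, B.opn⟩
  refine ⟨measurePreserving_smul _ μ, ⟨fun U hU h => ?_⟩⟩
  refine aeconst_of_trans (Measure.haar (G := G)).inv (fun x y => ?_) hU
    (D.moore (fun g => measurePreserving_smul g μ) hs hU h.eventuallyEq)
  obtain ⟨a, rfl⟩ := B.trans x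
  obtain ⟨b, rfl⟩ := B.trans y
  exact ⟨b * a⁻¹, by rw [mul_smul, inv_smul_smul]⟩

end Pool.Agent.P.MP_d483fb_an.Z
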