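import Pool.Agent.P.MP_d483fb_an.Z.Erg.Kac

/-!
The first return map of an invertible map, for the conditional measure.
-/

namespace Pool.Agent.P.MP_d483fb_an.Z

open MeasureTheory ProbabilityTheory Filter Set Topology
open scoped ENNReal

variable {X : Type*} {T S : X → X} {A : Set X}

/-- The return time of the inverse map at the image point. -/
theorem retTime_inv (hS : Function.LeftInverse S T) {x : X} (hx : x ∈ A)
    (h : 0 < retTime T A x) : retTime S A (firstRet T A x) = retTime T A x := by
  have e : ∀ i ≤ retTime T A x, S^[i] (firstRet T A x) = T^[retTime T A x - i] x := fun i hi => by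
    rw [firstRet]
    conv_lhs => rw [← Nat.add_sub_cancel' hi, Function.iterate_add_apply]
    exact hS.iterate i _
  obtain ⟨n, hn⟩ := Nat.exists_eq_succ_of_ne_zero h.ne'
  rw [hn]
  refine retTime_eq_succ.2 ⟨fun i h1 h2 => ?_, ?_⟩
  · rw [e i (by omega)]
    exact notMem_of_lt_retTime (by omega) (by omega)
  · rw [e _ (by omega), hn]
    simpa using hx

/-- The first return map of the inverse map is the inverse of the first return map. -/
theorem firstRet_inv (hS : Function.LeftInverse S T) {x : X} (hx : x ∈ A)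
    (h : 0 < retTime T A x) : firstRet S A (firstRet T A x) = x := by
  rw [firstRet, retTime_inv hS hx h, firstRet]
  exact hS.iterate _ _

variable [MeasurableSpace X] {μ : Measure X} [IsFiniteMeasure μ]

theorem ae_cond_retTime (hT : MeasurePreserving T μ μ) (hA : MeasurableSet A) :
    ∀ᵐ x ∂μ[|A], x ∈ A ∧ 0 < retTime T A x ∧ firstRet T A x ∈ A := by
  refine Measure.ae_smul_measure ?_ _
  filter_upwards [ae_retTime_pos hT hA, ae_restrict_mem hA] with x h1 h2
  exact ⟨h2, h1, firstRet_mem h1⟩

theorem measurePreserving_firstRet_cond (hT : MeasurePreserving T μ μ) (hA : MeasurableSet A) :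
    MeasurePreserving (firstRet T A) μ[|A] μ[|A] :=
  (measurePreserving_firstRet hT hA).smul_measure _

theorem ergodic_firstRet_cond (hT : Ergodic T μ) (hA : MeasurableSet A) :
    Ergodic (firstRet T A) μ[|A] :=
  (ergodic_firstRet hT hA).smul_measure _

theorem ae_cond_firstRet_inv (hT : MeasurePreserving T μ μ) (hA : MeasurableSet A)
    (hS : Function.LeftInverse S T) : ∀ᵐ x ∂μ[|A], firstRet S A (firstRet T A x) = x ∧
      retTime S A (firstRet T A x) = retTime T A x := by
  filter_upwards [ae_cond_retTime hT hA] with x hx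
  exact ⟨firstRet_inv hS hx.1 hx.2.1, retTime_inv hS hx.1 hx.2.1⟩

/-- The formula of Kac for the conditional measure. -/
theorem integral_tower_cond (hT : Ergodic T μ) (hA : MeasurableSet A) (h0 : μ A ≠ 0) {f : X → ℝ}
    (hm : Measurable f) (hf : Integrable f μ) :
    Integrable (fun x => birkhoffSum T f (retTime T A x) x) μ[|A] ∧
      ∫ x, birkhoffSum T f (retTime T A x) x ∂μ[|A] = (μ.real A)⁻¹ * ∫ x, f x ∂μ := by
  obtain ⟨h1, h2⟩ := integral_tower hT.toMeasurePreserving hA (ae_visit_of_ergodic hT hA h0) hm hf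
  refine ⟨h1.smul_measure (ENNReal.inv_ne_top.2 h0), ?_⟩
  rw [ProbabilityTheory.cond, integral_smul_measure, h2, ENNReal.toReal_inv]
  rfl

theorem integral_retTime_cond [IsProbabilityMeasure μ] (hT : Ergodic T μ) (hA : MeasurableSet A)
    (h0 : μ A ≠ 0) : Integrable (fun x => (retTime T A x : ℝ)) μ[|A] ∧
      ∫ x, (retTime T A x : ℝ) ∂μ[|A] = (μ.real A)⁻¹ := by
  simpa [birkhoffSum] using integral_tower_cond hT hA h0 (f := fun _ => 1) measurable_const
    (integrable_const _)

/-- The times of the returns grow linearly. -/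
theorem tendsto_retTime_sum [IsProbabilityMeasure μ] (hT : Ergodic T μ) (hA : MeasurableSet A)
    (h0 : μ A ≠ 0) : ∀ᵐ x ∂μ[|A], Tendsto (fun n : ℕ =>
      ((birkhoffSum (firstRet T A) (retTime T A) n x : ℕ) : ℝ) / n) atTop (𝓝 (μ.real A)⁻¹) := by
  have := cond_isProbabilityMeasure (μ := μ) h0
  obtain ⟨h1, h2⟩ := integral_retTime_cond hT hA h0
  filter_upwards [birkhoff_ergodic (ergodic_firstRet_cond hT hA) h1] with x hx
  rw [h2] at hx
  simpa [birkhoffSum] using hx

/-- The frequency of the visits to a set. -/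
theorem tendsto_visits [IsProbabilityMeasure μ] (hT : Ergodic T μ) (hA : MeasurableSet A)
    [DecidablePred (· ∈ A)] : ∀ᵐ x ∂μ, Tendsto (fun n : ℕ =>
      (((Finset.range n).filter fun i => T^[i] x ∈ A).card : ℝ) / n) atTop (𝓝 (μ.real A)) := by
  filter_upwards [birkhoff_ergodic hT ((integrable_const (1 : ℝ)).indicator hA)] with x hx
  rw [integral_indicator hA] at hx
  simpa [birkhoffSum, indicator_apply] using hx

/-- Among sufficiently many sets of the same measure two have an intersection of definite
measure. -/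
theorem exists_inter_ge [IsProbabilityMeasure μ] {K : ℕ → Set X} (hK : ∀ i, MeasurableSet (K i))
    {c : ℝ} {J : ℕ} (hc : ∀ i, c ≤ μ.real (K i)) (hJ : 2 < J * c) :
    ∃ i j, i < j ∧ j < J ∧ 1 / (J : ℝ) ^ 2 ≤ μ.real (K i ∩ K j) := by
  by_contra h
  push Not at h
  have key : ∀ n ≤ J, ∑ i ∈ Finset.range n, μ.real (K i) ≤
      μ.real (⋃ i ∈ Finset.range n, K i) + n ^ 2 / J ^ 2 := by
    intro n hn
    induction n with
    | zero => simp
    | succ n ih =>
      have h1 : μ.real ((⋃ i ∈ Finset.range n, K i) ∩ K n) ≤ n * (1 / (J : ℝ) ^ 2) := by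
        rw [iUnion₂_inter]
        refine (measureReal_biUnion_finset_le _ _).trans ?_
        simpa using Finset.sum_le_card_nsmul (Finset.range n) _ _
          fun i hi => (h i n (Finset.mem_range.1 hi) hn).le
      have h2 := measureReal_union_add_inter (μ := μ) (s := ⋃ i ∈ Finset.range n, K i) (hK n)
        (measure_ne_top _ _) (measure_ne_top _ _)
      rw [Finset.sum_range_succ, Finset.range_add_one, Finset.set_biUnion_insert, union_comm]
      have h3 := ih (by omega)
      have h4 : (0 : ℝ) ≤ 1 / (J : ℝ) ^ 2 := by positivity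
      have h5 : (0 : ℝ) ≤ n := Nat.cast_nonneg n
      push_cast
      rw [div_eq_mul_one_div] at h3 ⊢
      nlinarith
  have h1 := key J le_rfl
  have h2 : (J : ℝ) * c ≤ ∑ i ∈ Finset.range J, μ.real (K i) := by
    simpa using Finset.card_nsmul_le_sum (Finset.range J) _ _ fun i _ => hc i
  have h3 : μ.real (⋃ i ∈ Finset.range J, K i) ≤ 1 := measureReal_le_one
  have h4 : (J : ℝ) ≠ 0 := by
    rintro h4
    rw [h4] at hJ
    linarith
  rw [div_self (pow_ne_zero 2 h4)] at h1
  linarith

end Pool.Agent.P.MP_d483fb_an.Z
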