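import Pool.Agent.P.MP_d483fb_an.Z.Erg.Birkhoff

/-!
Sublinear growth of a coarsely Lipschitz integrable function along the orbits of a vector group.
-/

namespace Pool.Agent.P.MP_d483fb_an.Z

open MeasureTheory Filter Set Topology

theorem act_nsmul {X A : Type*} [AddMonoid A] {φ : A → X → X} (h0 : ∀ x, φ 0 x = x)
    (hadd : ∀ a b x, φ (a + b) x = φ a (φ b x)) (u : A) (n : ℕ) (x : X) :
    φ (n • u) x = (φ u)^[n] x := by
  induction n generalizing x with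
  | zero => rw [zero_nsmul, h0]; rfl
  | succ n ih => rw [succ_nsmul, hadd, ih]; rfl

theorem exists_le_of_tendsto_div {u : ℕ → ℝ} (h : Tendsto (fun n : ℕ => u n / n) atTop (𝓝 0))
    {ε : ℝ} (hε : 0 < ε) : ∃ C : ℝ, ∀ n : ℕ, u n ≤ C + ε * n := by
  obtain ⟨N, hN⟩ := eventually_atTop.1 (h.eventually_lt_const hε)
  obtain ⟨C, hC⟩ := ((finite_le_nat N).image u).bddAbove
  refine ⟨max C 0, fun n => ?_⟩
  have h1 : 0 ≤ ε * n := by positivity
  rcases le_or_gt n N with h2 | h2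
  · linarith [hC ⟨n, h2, rfl⟩, le_max_left C 0]
  · have h3 : (0 : ℝ) < n := by exact_mod_cast (Nat.zero_le N).trans_lt h2
    have h4 := hN n h2.le
    rw [div_lt_iff₀ h3] at h4
    linarith [le_max_right C 0]

/-- Every vector is close to a natural multiple of an element of a finite set. -/
theorem exists_direction_net (A : Type*) [NormedAddCommGroup A] [NormedSpace ℝ A]
    [FiniteDimensional ℝ A] {ε : ℝ} (hε : 0 < ε) : ∃ F : Set A, F.Finite ∧ (∀ u ∈ F, ‖u‖ ≤ 1) ∧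
      ∀ s : A, ∃ u ∈ F, ∃ n : ℕ, (n : ℝ) ≤ ‖s‖ + 1 ∧ ‖s - n • u‖ ≤ ε * (‖s‖ + 1) := by
  obtain ⟨F, h1, h2, h3⟩ := finite_cover_balls_of_compact (isCompact_closedBall (0 : A) 1) hε
  refine ⟨F, h2, fun u hu => by simpa using h1 hu, fun s => ?_⟩
  have h4 : (⌊‖s‖⌋₊ : ℝ) ≤ ‖s‖ := Nat.floor_le (norm_nonneg s)
  have h5 : ‖s‖ < ⌊‖s‖⌋₊ + 1 := Nat.lt_floor_add_one _
  have h6 : (0 : ℝ) < ⌊‖s‖⌋₊ + 1 := by positivity
  have h7 : ((⌊‖s‖⌋₊ : ℝ) + 1)⁻¹ • s ∈ Metric.closedBall (0 : A) 1 := by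
    rw [mem_closedBall_zero_iff, norm_smul, norm_inv, Real.norm_of_nonneg h6.le,
      inv_mul_le_iff₀ h6]
    linarith
  obtain ⟨u, hu, h8⟩ := mem_iUnion₂.1 (h3 h7)
  refine ⟨u, hu, ⌊‖s‖⌋₊ + 1, by push_cast; linarith, ?_⟩
  have e : s - (⌊‖s‖⌋₊ + 1) • u = ((⌊‖s‖⌋₊ : ℝ) + 1) • (((⌊‖s‖⌋₊ : ℝ) + 1)⁻¹ • s - u) := by
    rw [smul_sub, smul_inv_smul₀ h6.ne', ← Nat.cast_smul_eq_nsmul ℝ]
    push_cast
    rfl
  rw [e, norm_smul, Real.norm_of_nonneg h6.le, mul_comm]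
  rw [Metric.mem_ball, dist_eq_norm] at h8
  exact mul_le_mul h8.le (by linarith) h6.le hε.le

/-- An integrable function that is coarsely Lipschitz along the orbits of a vector group grows
sublinearly along almost every orbit. -/
theorem tempered_of_lipschitz {X A : Type*} [MeasurableSpace X] {μ : Measure X}
    [IsFiniteMeasure μ] [NormedAddCommGroup A] [NormedSpace ℝ A]
    [FiniteDimensional ℝ A] {φ : A → X → X} (h0 : ∀ x, φ 0 x = x)
    (hadd : ∀ a b x, φ (a + b) x = φ a (φ b x)) (hmp : ∀ a, MeasurePreserving (φ a) μ μ)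
    {h : X → ℝ} (hi : Integrable h μ) {L : ℝ} (hL0 : 0 ≤ L)
    (hL : ∀ s x, h (φ s x) ≤ h x + L * (‖s‖ + 1)) :
    ∀ᵐ x ∂μ, ∀ ε : ℝ, 0 < ε → ∃ C : ℝ, ∀ s, h (φ s x) ≤ C + ε * ‖s‖ := by
  have hp : ∀ k : ℕ, (0 : ℝ) < 1 / (k + 1) := fun k => by positivity
  choose F hF _ hnet using fun k => exists_direction_net A (hp k)
  have h1 : ∀ k, ∀ᵐ x ∂μ, ∀ u ∈ F k,
      Tendsto (fun n : ℕ => h ((φ u)^[n] x) / n) atTop (𝓝 0) := fun k =>
    (ae_ball_iff (hF k).countable).2 fun u _ => tendsto_iterate_div (hmp u) hi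
  filter_upwards [ae_all_iff.2 h1] with x hx ε hε
  obtain ⟨k, hk⟩ := exists_nat_one_div_lt (div_pos hε (by positivity : 0 < L + 1))
  have h2 : ∀ u : F k, ∃ C : ℝ, ∀ n : ℕ, h ((φ u)^[n] x) ≤ C + 1 / (k + 1) * n := fun u =>
    exists_le_of_tendsto_div (hx k u u.2) (hp k)
  choose C hC using h2
  have := (hF k).to_subtype
  obtain ⟨D, hD⟩ := (finite_range C).bddAbove
  refine ⟨D + ε + L, fun s => ?_⟩
  obtain ⟨u, hu, n, h3, h4⟩ := hnet k s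
  have h5 := hL (s - n • u) (φ (n • u) x)
  rw [← hadd, sub_add_cancel, act_nsmul h0 hadd] at h5
  have h6 := hC ⟨u, hu⟩ n
  have h7 : C ⟨u, hu⟩ ≤ D := hD ⟨_, rfl⟩
  have h8 := hp k
  generalize (1 : ℝ) / (k + 1) = δ at *
  rw [lt_div_iff₀ (by positivity)] at hk
  have h9 := mul_le_mul_of_nonneg_left h4 hL0
  have h10 := mul_le_mul_of_nonneg_left h3 h8.le
  have h11 := mul_le_mul_of_nonneg_right hk.le (by positivity : 0 ≤ ‖s‖ + 1)
  simp only at h6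
  nlinarith

end Pool.Agent.P.MP_d483fb_an.Z
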